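import Pool.Agent.Run7.h439.DC.Odd3

set_option autoImplicit false

/-!
# The orbits of negative odd integers in the classes defined by digits in odd bases

We consider the negative odd integers whose absolute values lie in a class given by the residues of
strongly additive digit functions (for example sums of digits) in pairwise coprime odd bases. All invariant
sets, in particular the basins of the cycles, have their proportional shares in every such class, with a
power saving which is uniform in the set; the same holds for the times and places of the first entrances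
into finite sets, and Q1 is decided by almost all members of one class.
-/

namespace Pool.Agent.Results.MP_005f52_nt.DigitClassesBasins

open Filter Topology

/-- The Syracuse map. -/
def Syr (N : ℤ) : ℤ := (3 * N + 1) / 2 ^ padicValInt 2 (3 * N + 1)

/-- `Z` is the set of the terms of a periodic orbit of negative odd integers. -/
def IsCycle (Z : Finset ℤ) : Prop :=
  ∃ (a : ℤ) (p : ℕ), a < 0 ∧ Odd a ∧ 1 ≤ p ∧ Syr^[p] a = a ∧
    Z = (Finset.range p).image fun i => Syr^[i] a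

/-- The orbit of `N` enters `Z` after exactly `k` steps. -/
def Enters (Z : Finset ℤ) (k : ℕ) (N : ℤ) : Prop := Syr^[k] N ∈ Z ∧ ∀ i < k, Syr^[i] N ∉ Z

/-- the number of the negative odd integers `N ≥ -X` with the property `P` -/
noncomputable def count (P : ℤ → Prop) (X : ℕ) : ℝ := ({N : ℤ | -(X : ℤ) ≤ N ∧ N < 0 ∧ Odd N ∧ P N}.ncard : ℝ)

/-- `S` contains a negative odd integer if and only if it contains its image -/
def Invariant (S : Set ℤ) : Prop := ∀ N, N < 0 → Odd N → (N ∈ S ↔ Syr N ∈ S)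

/-- `W` is strongly `q`-additive: `W(n)` is the sum of the values of `W` at the digits of `n` in base `q`. -/
def StronglyAdditive (q : ℕ) (W : ℕ → ℤ) : Prop := ∀ n r : ℕ, r < q → W (q * n + r) = W n + W r

/-- There is no prime `p ∣ m` such that `W(r) ≡ r W(1)` modulo `p` for all `r ≤ q`. For the sum of the
digits in base `q` this says that `m` is coprime to `q - 1`. -/
def Unobstructed (q : ℕ) (W : ℕ → ℤ) (m : ℕ) : Prop :=
  ∀ p : ℕ, p.Prime → p ∣ m → ∃ r : ℕ, r ≤ q ∧ ¬ W r ≡ r * W 1 [ZMOD p]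

/-- The data: pairwise coprime odd bases `q i ≥ 3`, strongly `q i`-additive functions `W i` with integer
values, and moduli `m i ≥ 1` without obstruction. -/
structure Data {l : ℕ} (q m : Fin l → ℕ) (W : Fin l → ℕ → ℤ) : Prop where
  odd : ∀ i, 3 ≤ q i ∧ q i % 2 = 1
  coprime : ∀ i j, i ≠ j → Nat.Coprime (q i) (q j)
  additive : ∀ i, StronglyAdditive (q i) (W i)
  pos : ∀ i, 1 ≤ m i
  free : ∀ i, Unobstructed (q i) (W i) (m i)

/-- the class: `W i |N| ≡ a i` modulo `m i` for all `i` -/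
def InClass {l : ℕ} (m : Fin l → ℕ) (W : Fin l → ℕ → ℤ) (a : Fin l → ℤ) (N : ℤ) : Prop :=
  ∀ i, W i N.natAbs ≡ a i [ZMOD m i]

/-- Among the negative odd integers, those with the property `P` have natural density `δ`:
`2 / X` times the number of negative odd `N ≥ -X` with `P N` tends to `δ`. -/
def HasDensity (P : ℤ → Prop) (δ : ℝ) : Prop :=
  Tendsto (fun X : ℕ => 2 / (X : ℝ) * count P X) atTop (𝓝 δ)

/-- `log |N| / log (4/3) + x * log 2 * √(2 log |N| / (log (4/3))^3)` -/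
noncomputable def bound (x : ℝ) (N : ℤ) : ℝ :=
  1 / Real.log (4 / 3) * Real.log |(N : ℝ)|
    + x * (Real.log 2 * Real.sqrt (2 * Real.log |(N : ℝ)| / Real.log (4 / 3) ^ 3))

/-- The distribution function of the standard normal law. -/
noncomputable def Phi (x : ℝ) : ℝ :=
  ProbabilityTheory.cdf (ProbabilityTheory.gaussianReal 0 1) x

/-- the three known cycles -/
def C₁ : Finset ℤ := {-1}

/-- the three known cycles -/
def C₂ : Finset ℤ := {-5, -7}

/-- the three known cycles -/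
def C₃ : Finset ℤ := {-17, -25, -37, -55, -41, -61, -91}

open Pool.Agent.Run7.h439.DC
open Pool.Agent.Y965.PL (Mn MnS ind ind_pos ind_neg ind_congr ind_nonneg)

theorem count_ind (P : ℤ → Prop) (X : ℕ) : count P X = ∑ n ∈ Finset.Icc 1 X, ind (fun n : ℕ => n % 2 = 1 ∧ P (-(n : ℤ))) n := by
  classical
  have key : ∀ Q : ℕ → Prop, ∑ n ∈ Finset.Icc 1 X, ind Q n = (((Finset.Icc 1 X).filter fun n => Q n).card : ℝ) := by
    intro Q
    unfold ind
    rw [Finset.sum_boole]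
  rw [key]
  unfold count
  have e : {N : ℤ | -(X : ℤ) ≤ N ∧ N < 0 ∧ Odd N ∧ P N}
      = (fun n : ℕ => -(n : ℤ)) '' (((Finset.Icc 1 X).filter fun n : ℕ => n % 2 = 1 ∧ P (-(n : ℤ)) : Finset ℕ) : Set ℕ) := by
    ext N
    simp only [Set.mem_ofPred_eq, Set.mem_image, Finset.coe_filter, Finset.mem_Icc]
    constructor
    · rintro ⟨g1, g2, g3, g4⟩
      have g3' := Int.odd_iff.1 g3
      have e : -((N.natAbs : ℕ) : ℤ) = N := by omega
      refine ⟨N.natAbs, ⟨⟨by omega, by omega⟩, by omega, ?_⟩, e⟩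
      rw [e]; exact g4
    · rintro ⟨n, ⟨⟨g1, g2⟩, g3, g4⟩, rfl⟩
      refine ⟨by omega, by omega, ?_, g4⟩
      rw [Int.odd_iff]
      omega
  rw [e, Set.ncard_image_of_injective _ (fun a b hab => by
    have : -(a : ℤ) = -(b : ℤ) := hab
    omega), Set.ncard_coe_finset]
  congr

theorem count_cl {l : ℕ} {m : Fin l → ℕ} {W : Fin l → ℕ → ℤ} {a : Fin l → ℤ} (P : ℤ → Prop) (X : ℕ) :
    count (fun N => InClass m W a N ∧ P N) X =
      ∑ n ∈ Finset.Icc 1 X, ind (Ed m W a) n * ind (fun n : ℕ => n % 2 = 1 ∧ P (-(n : ℤ))) n := by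
  rw [count_ind]
  apply Finset.sum_congr rfl
  intro n _
  rw [← ind_and]
  apply ind_congr
  have e : InClass m W a (-(n : ℤ)) ↔ Ed m W a n := by
    rw [← Ed_iff]
    unfold InClass
    rw [Int.natAbs_neg, Int.natAbs_natCast]
  rw [e]
  tauto

theorem dens_of {P : ℤ → Prop} {δ : ℝ} (h : Mn (ind (fun n : ℕ => n % 2 = 1 ∧ P (-(n : ℤ)))) (δ / 2)) : HasDensity P δ := by
  unfold HasDensity
  have h1 := Filter.Tendsto.const_mul 2 h
  rw [mul_div_cancel₀ δ (by norm_num : (2 : ℝ) ≠ 0)] at h1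
  refine h1.congr fun X => ?_
  rw [count_ind]
  ring

theorem dens_cl {l : ℕ} {m : Fin l → ℕ} {W : Fin l → ℕ → ℤ} {a : Fin l → ℤ} {P : ℤ → Prop} {δ : ℝ}
    (h : MnS id (ind (fun n : ℕ => Ed m W a n ∧ n % 2 = 1 ∧ P (-(n : ℤ)))) (δ / 2)) :
    HasDensity (fun N => InClass m W a N ∧ P N) δ := by
  unfold HasDensity
  have h1 := Filter.Tendsto.const_mul 2 h
  rw [mul_div_cancel₀ δ (by norm_num : (2 : ℝ) ≠ 0)] at h1
  refine h1.congr fun X => ?_
  rw [count_cl]
  have e : ∑ n ∈ Finset.Icc 1 X, ind (fun n : ℕ => Ed m W a n ∧ n % 2 = 1 ∧ P (-(n : ℤ))) (id n) =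
      ∑ n ∈ Finset.Icc 1 X, ind (Ed m W a) n * ind (fun n : ℕ => n % 2 = 1 ∧ P (-(n : ℤ))) n := by
    apply Finset.sum_congr rfl
    intro n _
    rw [← ind_and]
    rfl
  rw [e]
  ring

theorem dens_unique {P : ℤ → Prop} {a b : ℝ} (h : HasDensity P a) (h' : HasDensity P b) : a = b := tendsto_nhds_unique h h'

theorem bound_eq (x : ℝ) (n : ℕ) : bound x (-(n : ℤ)) = Pool.Agent.H499R2.HL.bo x (Real.log n) := by
  unfold bound Pool.Agent.H499R2.HL.bo
  have : |((-(n : ℤ) : ℤ) : ℝ)| = n := by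
    push_cast
    rw [abs_neg, abs_of_nonneg (Nat.cast_nonneg n)]
  rw [this]

theorem syr_eq {N M : ℤ} (v : ℕ) (h : 3 * N + 1 = 2 ^ v * M) (hM : M % 2 = 1) : Syr N = M :=
  Pool.Agent.W26.HN.Sy_eq h hM

theorem s1 : Syr (-1) = -1 := syr_eq 1 (by norm_num) (by norm_num)
theorem s5 : Syr (-5) = -7 := syr_eq 1 (by norm_num) (by norm_num)
theorem s7 : Syr (-7) = -5 := syr_eq 2 (by norm_num) (by norm_num)
theorem s17 : Syr (-17) = -25 := syr_eq 1 (by norm_num) (by norm_num)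
theorem s25 : Syr (-25) = -37 := syr_eq 1 (by norm_num) (by norm_num)
theorem s37 : Syr (-37) = -55 := syr_eq 1 (by norm_num) (by norm_num)
theorem s55 : Syr (-55) = -41 := syr_eq 2 (by norm_num) (by norm_num)
theorem s41 : Syr (-41) = -61 := syr_eq 1 (by norm_num) (by norm_num)
theorem s61 : Syr (-61) = -91 := syr_eq 1 (by norm_num) (by norm_num)
theorem s91 : Syr (-91) = -17 := syr_eq 4 (by norm_num) (by norm_num)

theorem cycle₁ : IsCycle C₁ := by
  refine ⟨-1, 1, by norm_num, by decide, le_rfl, by rw [Function.iterate_one, s1], ?_⟩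
  rw [show Finset.range 1 = {0} from rfl, Finset.image_singleton]
  rfl

theorem cycle₂ : IsCycle C₂ := by
  have h1 : Syr^[1] (-5) = -7 := by rw [Function.iterate_one, s5]
  have h2 : Syr^[2] (-5) = -5 := by rw [Function.iterate_succ_apply', h1, s7]
  refine ⟨-5, 2, by norm_num, by decide, by norm_num, h2, ?_⟩
  rw [show Finset.range 2 = {0, 1} from rfl, Finset.image_insert, Finset.image_singleton, h1]
  rfl

theorem cycle₃ : IsCycle C₃ := by
  have h1 : Syr^[1] (-17) = -25 := by rw [Function.iterate_one, s17]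
  have h2 : Syr^[2] (-17) = -37 := by rw [Function.iterate_succ_apply', h1, s25]
  have h3 : Syr^[3] (-17) = -55 := by rw [Function.iterate_succ_apply', h2, s37]
  have h4 : Syr^[4] (-17) = -41 := by rw [Function.iterate_succ_apply', h3, s55]
  have h5 : Syr^[5] (-17) = -61 := by rw [Function.iterate_succ_apply', h4, s41]
  have h6 : Syr^[6] (-17) = -91 := by rw [Function.iterate_succ_apply', h5, s61]
  have h7 : Syr^[7] (-17) = -17 := by rw [Function.iterate_succ_apply', h6, s91]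
  refine ⟨-17, 7, by norm_num, by decide, by norm_num, h7, ?_⟩
  rw [show Finset.range 7 = {0, 1, 2, 3, 4, 5, 6} from rfl]
  simp only [Finset.image_insert, Finset.image_singleton, h1, h2, h3, h4, h5, h6]
  rfl

/-- NEGATIVE ODD INTEGERS IN DIGIT CLASSES.

(1) (Uniform transfer.) For all data `q, m, W` there are `K` and `c > 0` such that for all invariant sets
`S`, all classes and all `X ≥ 1` the number of the negative odd `N ≥ -X` in the class which belong to `S`
is `∏ 1 / m i` times the number of all such `N`, up to `K X ^ (1 - c)`.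

(2) For all data and all `R` there are `K` and `c > 0` such that for all sets `Z ⊆ [-R, R]` of odd integers,
all sets `B` of pairs, all classes and all `X ≥ 1` the same holds for the `N` whose orbit first enters `Z`
after `k` steps and for which the pair of `k` and the point of entrance belongs to `B`.

(3) The basin of every cycle `Z` has a natural density `δ Z > 0`, and in every class the entrance
times into `Z` have the density, the normal limit law and the equidistribution in residue classes of all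
entrance times into `Z`, multiplied by `∏ 1 / m i`; the `N` in the class for which the assertion of Q1 holds
have natural density `(∏ 1 / m i) * (δ C₁ + δ C₂ + δ C₃)`.

(4) The assertion of Q1 holds if and only if there are data and a class such that it holds for almost all
`N` in the class. -/
theorem result :
    (∀ (l : ℕ) (q m : Fin l → ℕ) (W : Fin l → ℕ → ℤ), Data q m W → ∃ K c : ℝ, 0 < c ∧
      ∀ S : Set ℤ, Invariant S → ∀ (a : Fin l → ℤ) (X : ℕ), 1 ≤ X →
        |count (fun N => InClass m W a N ∧ N ∈ S) X - (∏ i, 1 / (m i : ℝ)) * count (fun N => N ∈ S) X|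
          ≤ K * (X : ℝ) ^ (1 - c)) ∧
    (∀ (l : ℕ) (q m : Fin l → ℕ) (W : Fin l → ℕ → ℤ), Data q m W → ∀ R : ℕ, ∃ K c : ℝ, 0 < c ∧
      ∀ Z : Finset ℤ, (∀ y ∈ Z, Odd y ∧ |y| ≤ (R : ℤ)) → ∀ (B : Set (ℕ × ℤ)) (a : Fin l → ℤ) (X : ℕ), 1 ≤ X →
        |count (fun N => InClass m W a N ∧ ∃ k, Enters Z k N ∧ (k, Syr^[k] N) ∈ B) X -
          (∏ i, 1 / (m i : ℝ)) * count (fun N => ∃ k, Enters Z k N ∧ (k, Syr^[k] N) ∈ B) X|
          ≤ K * (X : ℝ) ^ (1 - c)) ∧
    (∃ δ : Finset ℤ → ℝ, ∀ (l : ℕ) (q m : Fin l → ℕ) (W : Fin l → ℕ → ℤ), Data q m W → ∀ a : Fin l → ℤ,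
      (∀ Z : Finset ℤ, IsCycle Z → 0 < δ Z ∧
        HasDensity (fun N => InClass m W a N ∧ ∃ k : ℕ, Syr^[k] N ∈ Z) ((∏ i, 1 / (m i : ℝ)) * δ Z) ∧
        ∀ (r : ℕ) (b : ℤ) (x : ℝ), 1 ≤ r →
          HasDensity (fun N => InClass m W a N ∧ ∃ k : ℕ, Enters Z k N ∧ (k : ℝ) ≤ bound x N ∧
            (k : ℤ) ≡ b [ZMOD r]) ((∏ i, 1 / (m i : ℝ)) * (δ Z * Phi x / r))) ∧
      HasDensity (fun N => InClass m W a N ∧ ∃ k : ℕ, Syr^[k] N ∈ C₁ ∪ C₂ ∪ C₃)
        ((∏ i, 1 / (m i : ℝ)) * (δ C₁ + δ C₂ + δ C₃))) ∧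
    ((∀ N, N < 0 → Odd N → ∃ k : ℕ, Syr^[k] N ∈ C₁ ∪ C₂ ∪ C₃) ↔
      ∃ (l : ℕ) (q m : Fin l → ℕ) (W : Fin l → ℕ → ℤ) (a : Fin l → ℤ), Data q m W ∧
        HasDensity (fun N => InClass m W a N ∧ ¬ ∃ k : ℕ, Syr^[k] N ∈ C₁ ∪ C₂ ∪ C₃) 0) := by
  classical
  have hDD : ∀ {l : ℕ} {q m : Fin l → ℕ} {W : Fin l → ℕ → ℤ}, Data q m W → DD 2 q m W := by
    intro l q m W hD
    refine ⟨fun i => (hD.odd i).1, fun i => ?_, hD.coprime, hD.additive, hD.pos, hD.free⟩
    rw [Nat.coprime_two_left]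
    exact Nat.odd_iff.2 (hD.odd i).2
  have hconv : ∀ S : Set ℤ, Invariant S →
      ∀ N : ℤ, N < 0 → N % 2 = 1 → (N ∈ S ↔ Pool.Agent.W26.HN.Sy N ∈ S) :=
    fun S hS N hN hodd => hS N hN (Int.odd_iff.2 hodd)
  have hset : ∀ S : Set ℤ, Invariant S → ∀ d : ℝ,
      Pool.Agent.H499R2.ND.Dn (fun n : ℕ => n % 2 = 1 ∧ -(n : ℤ) ∈ S) (d / 2) →
      ∀ (l : ℕ) (q m : Fin l → ℕ) (W : Fin l → ℕ → ℤ), Data q m W → ∀ a : Fin l → ℤ,
        HasDensity (fun N => InClass m W a N ∧ N ∈ S) ((∏ i, 1 / (m i : ℝ)) * d) := by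
    intro S hS d hd l q m W hD a
    obtain ⟨C, c, hC, hc0, _, hT⟩ := inv_ct_odd (hDD hD)
    obtain ⟨hρ0, hρ1⟩ := rho01 hD.pos
    have h1 := cls_set hρ0.le hρ1 hc0 (hT S (hconv S hS) a) (Pool.Agent.Y965.PL.Mn_of_Dn hd)
    apply dens_cl
    rw [mul_div_assoc]
    exact h1
  have hCst : ∀ y ∈ C₁ ∪ C₂ ∪ C₃, Syr y ∈ C₁ ∪ C₂ ∪ C₃ := by
    intro y hy
    have h1 : ∀ {Z : Finset ℤ}, IsCycle Z → y ∈ Z → Syr y ∈ Z :=
      fun hZ hyZ => Pool.Agent.W26.HN.cyc_step hZ y hyZ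
    rw [Finset.mem_union, Finset.mem_union] at hy ⊢
    rcases hy with (hy | hy) | hy
    · exact Or.inl (Or.inl (h1 cycle₁ hy))
    · exact Or.inl (Or.inr (h1 cycle₂ hy))
    · exact Or.inr (h1 cycle₃ hy)
  have hBa : Invariant {N : ℤ | ∃ k : ℕ, Syr^[k] N ∈ C₁ ∪ C₂ ∪ C₃} :=
    fun N _ _ => Pool.Agent.W26.HN.Ba_inv hCst N
  obtain ⟨δ, hδ⟩ := Pool.Agent.W26.HN.law_cyc
  have h3 : Pool.Agent.H499R2.ND.Dn (fun n : ℕ => n % 2 = 1 ∧
      -(n : ℤ) ∈ Pool.Agent.W26.HN.Ba (C₁ ∪ C₂ ∪ C₃)) ((δ C₁ + δ C₂ + δ C₃) / 2) := by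
    have h12 : C₁ ≠ C₂ := by decide
    have h13 : C₁ ≠ C₃ := by decide
    have h23 : C₂ ≠ C₃ := by decide
    have hcy : ∀ Z ∈ ({C₁, C₂, C₃} : Finset (Finset ℤ)), IsCycle Z := by
      intro Z hZ
      rw [Finset.mem_insert, Finset.mem_insert, Finset.mem_singleton] at hZ
      rcases hZ with rfl | rfl | rfl
      · exact cycle₁
      · exact cycle₂
      · exact cycle₃
    have h2 := Pool.Agent.H499R2.LT.Dn_sum ({C₁, C₂, C₃} : Finset (Finset ℤ))
      (fun Z n => n % 2 = 1 ∧ -(n : ℤ) ∈ Pool.Agent.W26.HN.Ba Z) (fun Z => δ Z / 2)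
      (fun Z hZ => (hδ Z (hcy Z hZ)).2.1) (by
        rintro n Z hZ Z' hZ' ⟨_, k, hk⟩ ⟨_, k', hk'⟩
        exact Pool.Agent.W26.HN.cyc_eq (hcy Z hZ) (hcy Z' hZ') hk hk')
    rw [Finset.sum_insert (by
      rw [Finset.mem_insert, Finset.mem_singleton]
      rintro (h | h)
      · exact h12 h
      · exact h13 h), Finset.sum_insert (by
      rw [Finset.mem_singleton]; exact h23), Finset.sum_singleton] at h2
    have e : δ C₁ / 2 + (δ C₂ / 2 + δ C₃ / 2) = (δ C₁ + δ C₂ + δ C₃) / 2 := by ring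
    rw [e] at h2
    refine Pool.Agent.H499R2.LT.Dn_iff (fun n _ => ?_) h2
    constructor
    · rintro ⟨Z, hZ, h4, k, hk⟩
      refine ⟨h4, k, ?_⟩
      rw [Finset.mem_union, Finset.mem_union]
      rw [Finset.mem_insert, Finset.mem_insert, Finset.mem_singleton] at hZ
      rcases hZ with rfl | rfl | rfl
      · exact Or.inl (Or.inl hk)
      · exact Or.inl (Or.inr hk)
      · exact Or.inr hk
    · rintro ⟨h4, k, hk⟩
      rw [Finset.mem_union, Finset.mem_union] at hk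
      rcases hk with (hk | hk) | hk
      · exact ⟨C₁, by simp, h4, k, hk⟩
      · exact ⟨C₂, by simp, h4, k, hk⟩
      · exact ⟨C₃, by simp, h4, k, hk⟩
  refine ⟨fun l q m W hD => ?_, fun l q m W hD R => ?_, ⟨δ, fun l q m W hD a => ⟨fun Z hZ => ?_, ?_⟩⟩, fun h => ?_, ?_⟩
  · obtain ⟨C, c, hC, hc0, _, hT⟩ := inv_ct_odd (hDD hD)
    refine ⟨C, c, hc0, fun S hS a X hX => ?_⟩
    rw [count_cl, count_ind]
    exact (hT S (hconv S hS) a).tr X hX
  · obtain ⟨C, c, hC, hc0, _, hT⟩ := en_ct_odd (hDD hD) R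
    refine ⟨C, c, hc0, fun Z hZ B a X hX => ?_⟩
    rw [count_cl, count_ind]
    exact (hT Z (fun y hy => Int.odd_iff.1 (hZ y hy).1) (fun y hy => (hZ y hy).2) B a).tr X hX
  · obtain ⟨hpos, h1, h2⟩ := hδ Z hZ
    refine ⟨hpos, ?_, fun r b x hr => ?_⟩
    · exact hset {N : ℤ | ∃ k : ℕ, Syr^[k] N ∈ Z}
        (fun N _ _ => Pool.Agent.W26.HN.Ba_inv (fun y hy => Pool.Agent.W26.HN.cyc_step hZ y hy) N) _ h1 l q m W hD a
    · obtain ⟨R, hR⟩ : ∃ R : ℕ, ∀ x ∈ Z, |x| ≤ (R : ℤ) := by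
        refine ⟨(Z.sup fun x => x.natAbs), fun x hx => ?_⟩
        have h1 : x.natAbs ≤ Z.sup fun x => x.natAbs := Finset.le_sup (f := fun x : ℤ => x.natAbs) hx
        rw [Int.abs_eq_natAbs]
        exact_mod_cast h1
      obtain ⟨C, c, hC, hc0, _, hT⟩ := en_ct_odd (hDD hD) R
      obtain ⟨hρ0, hρ1⟩ := rho01 hD.pos
      have h5 := en_law (fun x => (h2 r b hr).2 x) hρ0.le hρ1 hc0
        (fun B => hT Z (fun y hy => (Pool.Agent.W26.HN.cyc_odd hZ hy).2) hR B a) x
      apply dens_cl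
      have e : (∏ i, 1 / (m i : ℝ)) * (δ Z / (r : ℝ) * Pool.Agent.H499R2.ND.Phi x / 2) =
          (∏ i, 1 / (m i : ℝ)) * (δ Z * Phi x / r) / 2 := by
        unfold Phi
        rw [← Pool.Agent.H499R2.ND.phi_cdf]
        ring
      rw [← e]
      refine h5.congr fun X => ?_
      congr 1
      apply Finset.sum_congr rfl
      intro n _
      apply ind_congr
      refine and_congr_right fun _ => and_congr_right fun _ => exists_congr fun k => ?_
      rw [bound_eq]
      exact Iff.rfl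
  · exact hset _ hBa _ h3 l q m W hD a
  · refine ⟨0, fun i => i.elim0, fun i => i.elim0, fun i => i.elim0, fun i => i.elim0,
      ⟨fun i => i.elim0, fun i => i.elim0, fun i => i.elim0, fun i => i.elim0, fun i => i.elim0⟩, ?_⟩
    unfold HasDensity
    refine tendsto_const_nhds.congr fun X => ?_
    unfold count
    have e : {N : ℤ | -(X : ℤ) ≤ N ∧ N < 0 ∧ Odd N ∧ InClass (fun i : Fin 0 => i.elim0) (fun i => i.elim0) (fun i => i.elim0) N ∧
        ¬ ∃ k : ℕ, Syr^[k] N ∈ C₁ ∪ C₂ ∪ C₃} = ∅ := by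
      rw [Set.eq_empty_iff_forall_notMem]
      rintro N ⟨_, h2, h3, _, h5⟩
      exact h5 (h N h2 h3)
    rw [e]
    simp
  · rintro ⟨l, q, m, W, a, hD, h⟩
    have hS : Invariant {N : ℤ | ¬ ∃ k : ℕ, Syr^[k] N ∈ C₁ ∪ C₂ ∪ C₃} := fun N h1 h2 => not_congr (hBa N h1 h2)
    obtain ⟨d, _, _, _, hd, h0, _⟩ := Pool.Agent.W26.HN.inv_density (hconv _ hS)
    have h1 := dens_unique (hset _ hS d hd l q m W hD a) h
    obtain ⟨hρ0, _⟩ := rho01 hD.pos
    have hd0 : d = 0 := by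
      rcases mul_eq_zero.1 h1 with h5 | h5
      · exact absurd h5 hρ0.ne'
      · exact h5
    intro N hN hodd
    by_contra hcon
    exact h0.1 hd0 N hN (Int.odd_iff.1 hodd) hcon

end Pool.Agent.Results.MP_005f52_nt.DigitClassesBasins
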