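import Pool.Agent.Run7.h702.BC.P

set_option autoImplicit false

/-!
# The exponents in the orbits of almost all negative odd integers, at all the terms

Let `N` be a negative odd integer with the Syracuse orbit `N_i` and the exponents `x_(i+1) = v₂(3 N_i + 1)`. By the known
equivalence the question asks whether the sequence `x` always ends with one of three periodic sequences. Here is how far
the exponents of almost all orbits imitate a periodic (or any other) sequence, at all the terms `N_i` before the first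
value with `|N_k| < F(|N|)`, for any function `F` which tends to infinity.

(1) No window has a short code. Let `ψ` be ANY function from the finite binary words to the finite sequences of integers
(a decoder). For almost all `N`, and all `i < k`: if a window `(x_(i+1), …, x_(i+r))` with the sum `S ≤ ½ log |N_i|` is
`ψ(p)`, then the code `p` has at least `S - (2 + ε) log₂ log |N_i|` letters. (There are `2^(S-1)` windows with the sum `S`.)
The exceptions `-N ≤ x` for a constant bound `Y` in the place of `F` are at most `K x / (log Y)^η`, for all `x` and `Y`.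

(2) For every 2-adic integer `α = lim α_m` (e.g. the points `-1`, `-5`, `-17`, … of the three cycles), for almost all `N`
and all `i < k`: if `N_i ≡ α_m` modulo `2^m`, then `m ≤ (1 + ε) log₂ log |N_i|`. In particular `x_(i+1) ≤ (1 + ε) log₂ log |N_i|`.

(3) This is sharp: for all sequences of odd integers `α_m`, almost all `N` have a term with `N_i ≡ α_m` modulo `2^m` for
some `m ≥ (1 - ε) log₂ log |N_i|`, all the terms up to it having `|N_j| ≥ √|N|`; and almost all `N` have an exponent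
`x_(i+1) ≥ (1 - ε) log₂ log |N_i|` there.

So the orbits of almost all `N` follow each of the three cycles, at one term after another, up to a total exponent of
exactly `(1 + o(1)) log₂ log |N_i|` and never longer. The proof uses a Borel-Cantelli lemma for the successive scales of an
orbit (`Run7/h702/AT`, `BC`), from the mixing of the Syracuse random variables in natural density (starting libraries
`H499R2`, `R344/TH`).
-/

namespace Pool.Agent.Results.MP_005f52_nt.ExponentsOfAllTerms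

open Filter Topology

/-- `v₂(3 N + 1)` -/
def v (N : ℤ) : ℕ := padicValInt 2 (3 * N + 1)

/-- The Syracuse map. -/
def Syr (N : ℤ) : ℤ := (3 * N + 1) / 2 ^ v N

/-- The exponents `x_1, …, x_r` of `N`. -/
def exponents (r : ℕ) (N : ℤ) : List ℕ := (List.range r).map (fun i => v (Syr^[i] N))

/-- `log₂ log |N|` -/
noncomputable def ll (N : ℤ) : ℝ := Real.log (Real.log |(N : ℝ)|) / Real.log 2

/-- The orbit of `N` has a term of absolute value smaller than `Y`, and all the terms before the first one have the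
property `P`. -/
def AllTerms (P : ℤ → Prop) (Y : ℝ) (N : ℤ) : Prop :=
  ∃ k : ℕ, |((Syr^[k] N : ℤ) : ℝ)| < Y ∧ ∀ i < k, Y ≤ |((Syr^[i] N : ℤ) : ℝ)| ∧ P (Syr^[i] N)

/-- Some term of the orbit of `N` has the property `P`, and all the terms up to it are at least `√|N|` in absolute
value. -/
def SomeTerm (P : ℤ → Prop) (N : ℤ) : Prop :=
  ∃ i : ℕ, P (Syr^[i] N) ∧ ∀ j ≤ i, Real.sqrt |(N : ℝ)| ≤ |((Syr^[j] N : ℤ) : ℝ)|

/-- A window of exponents from `N` with a sum `S ≤ ½ log |N|` has only codes `p`, `ψ(p)` = the window, of length at least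
`S - s log₂ log |N|`. -/
def NoShortCode (ψ : List Bool → List ℕ) (s : ℝ) (N : ℤ) : Prop :=
  ∀ (r : ℕ) (p : List Bool), ψ p = exponents r N → (((exponents r N).sum : ℕ) : ℝ) ≤ Real.log |(N : ℝ)| / 2 →
    (((exponents r N).sum : ℕ) : ℝ) - s * ll N ≤ p.length

/-- The number of the negative odd integers `N = -n`, `n ≤ x`, with the property `P`. -/
noncomputable def count (P : ℤ → Prop) (x : ℕ) : ℝ := (Set.ncard {n : ℕ | n ≤ x ∧ n % 2 = 1 ∧ P (-(n : ℤ))} : ℝ)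

/-- Almost all negative odd integers have the property `P`. -/
def AlmostAll (P : ℤ → Prop) : Prop := Tendsto (fun x : ℕ => count (fun N => ¬ P N) x / x) atTop (𝓝 0)

open Run7.h702.BC in
theorem count_le {P : ℤ → Prop} {Q : ℕ → Prop} (h : ∀ n : ℕ, n % 2 = 1 → Q n → P (-(n : ℤ))) (x : ℕ) :
    count (fun N => ¬ P N) x ≤ (Set.ncard {n : ℕ | 1 ≤ n ∧ n ≤ x ∧ ¬ Q n} : ℝ) := by
  unfold count
  have hfin : {n : ℕ | 1 ≤ n ∧ n ≤ x ∧ ¬ Q n}.Finite :=
    (Set.finite_Icc 1 x).subset (fun n hn => ⟨hn.1, hn.2.1⟩)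
  have : {n : ℕ | n ≤ x ∧ n % 2 = 1 ∧ ¬ P (-(n : ℤ))} ⊆ {n : ℕ | 1 ≤ n ∧ n ≤ x ∧ ¬ Q n} := by
    rintro n ⟨h1, h2, h3⟩
    exact ⟨by omega, h1, fun h4 => h3 (h n h2 h4)⟩
  exact_mod_cast Set.ncard_le_ncard this hfin

/-- from density one to density zero of the exceptions -/
theorem almost_of {P : ℤ → Prop} {Q : ℕ → Prop} (h : ∀ n : ℕ, n % 2 = 1 → Q n → P (-(n : ℤ)))
    (h1 : Tendsto (fun N : ℕ => (Set.ncard {n : ℕ | 1 ≤ n ∧ n ≤ N ∧ Q n} : ℝ) / N) atTop (𝓝 1)) : AlmostAll P := by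
  unfold AlmostAll
  have h2 : Tendsto (fun N : ℕ => 1 - (Set.ncard {n : ℕ | 1 ≤ n ∧ n ≤ N ∧ Q n} : ℝ) / N) atTop (𝓝 (1 - 1)) :=
    h1.const_sub 1
  rw [sub_self] at h2
  refine tendsto_of_tendsto_of_tendsto_of_le_of_le' tendsto_const_nhds h2
    (Eventually.of_forall fun x => by unfold count; positivity) ?_
  filter_upwards [eventually_ge_atTop 1] with x hx
  have hxR : (0 : ℝ) < x := by exact_mod_cast hx
  rw [div_le_iff₀ hxR, sub_mul, div_mul_cancel₀ _ hxR.ne', one_mul]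
  refine (count_le h x).trans ?_
  rw [le_sub_iff_add_le]
  have hfin : ∀ R : ℕ → Prop, {n : ℕ | 1 ≤ n ∧ n ≤ x ∧ R n}.Finite := fun R =>
    (Set.finite_Icc 1 x).subset (fun n hn => ⟨hn.1, hn.2.1⟩)
  have hdisj : Disjoint {n : ℕ | 1 ≤ n ∧ n ≤ x ∧ ¬ Q n} {n : ℕ | 1 ≤ n ∧ n ≤ x ∧ Q n} := by
    rw [Set.disjoint_left]
    rintro n ⟨_, _, h3⟩ ⟨_, _, h4⟩
    exact h3 h4
  have h5 := Set.ncard_union_eq hdisj (hfin _) (hfin _)
  have h6 : {n : ℕ | 1 ≤ n ∧ n ≤ x ∧ ¬ Q n} ∪ {n : ℕ | 1 ≤ n ∧ n ≤ x ∧ Q n} ⊆ ((Finset.Icc 1 x : Finset ℕ) : Set ℕ) := by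
    rintro n (hn | hn)
    · rw [Finset.mem_coe, Finset.mem_Icc]; exact ⟨hn.1, hn.2.1⟩
    · rw [Finset.mem_coe, Finset.mem_Icc]; exact ⟨hn.1, hn.2.1⟩
  have h7 := Set.ncard_le_ncard h6 (Finset.finite_toSet _)
  rw [Set.ncard_coe_finset, Nat.card_Icc, h5] at h7
  exact_mod_cast (by omega : Set.ncard {n : ℕ | 1 ≤ n ∧ n ≤ x ∧ ¬ Q n} + Set.ncard {n : ℕ | 1 ≤ n ∧ n ≤ x ∧ Q n} ≤ x)

/-- all the terms, from a small set -/
theorem all_terms {s : ℝ} (hs : 1 < s) {A : Set ℤ} (hA : Run7.h702.BC.SmallZ s A) {P : ℤ → Prop}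
    (hP : ∀ N : ℤ, N % 2 = 1 → N ∉ A → P N) :
    (∃ η K : ℝ, 0 < η ∧ 0 < K ∧ ∀ Y : ℝ, 2 ≤ Y → ∀ x : ℕ,
      count (fun N => ¬ AllTerms P Y N) x ≤ K * x / (Real.log Y) ^ η) ∧
    ∀ F : ℕ → ℝ, Tendsto F atTop atTop → AlmostAll (fun N => AllTerms P (F N.natAbs) N) := by
  obtain ⟨η, K, hη, hK, h⟩ := Run7.h702.BC.bc_syr hs hA
  have key : ∀ (Y : ℝ) (n : ℕ), n % 2 = 1 → (n % 2 = 1 → Run7.h702.BC.AvS A Y (-(n : ℤ))) →
      AllTerms P Y (-(n : ℤ)) := by
    intro Y n hn h1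
    obtain ⟨k, h2, h3⟩ := h1 hn
    refine ⟨k, h2, fun i hi => ⟨(h3 i hi).1, hP _ ?_ (h3 i hi).2⟩⟩
    exact (Run7.h702.BC.syr_T i (-(n : ℤ)) (by omega) (by omega)).2.1
  refine ⟨⟨η, K, hη, hK, fun Y hY x => (count_le (fun n hn h1 => key Y n hn h1) x).trans (h Y hY x)⟩, fun F hF => ?_⟩
  refine almost_of (Q := fun n => n % 2 = 1 → Run7.h702.BC.AvS A (F n) (-(n : ℤ))) (fun n hn h1 => ?_)
    (Run7.h702.BC.density_one (D := fun Y n => n % 2 = 1 → Run7.h702.BC.AvS A Y (-(n : ℤ)))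
      (fun Y Y' n hY h2 h3 => Run7.h702.BC.AvS.mono hY (h2 h3)) hη hK h F hF)
  have h2 := key (F n) n hn h1
  rw [Int.natAbs_neg, Int.natAbs_natCast]
  exact h2

theorem some_term {ε : ℝ} (hε0 : 0 < ε) (hε : ε < 1) {α : ℕ → ℤ} (hα : ∀ m, α m % 2 = 1) {P : ℤ → Prop}
    (hP : ∀ (N : ℤ) (m : ℕ), N % 2 = 1 → (1 - ε) * ll N ≤ m → (2 : ℤ) ^ m ∣ N - α m → P N) :
    ∃ δ K : ℝ, 0 < δ ∧ 0 < K ∧ ∀ x : ℕ, 1 ≤ x →
      count (fun N => ¬ SomeTerm P N) x ≤ K * x * Real.exp (-(Real.log x) ^ δ) := by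
  obtain ⟨K, hK, h⟩ := Run7.h702.BC.hit_syr hε0 hε hα
  refine ⟨ε / 8, K, by linarith, hK, fun x hx => (count_le (fun n hn h1 => ?_) x).trans (h x hx)⟩
  obtain ⟨i, m, h2, h3, h4⟩ := h1 hn
  exact ⟨i, hP _ m (Run7.h702.BC.syr_T i (-(n : ℤ)) (by omega) (by omega)).2.1 h2 h3, h4⟩

/-- the 2-adic expansion of `-1/3` -/
def third (m : ℕ) : ℤ := (4 ^ m - 1) / 3

theorem third_spec (m : ℕ) : 3 * third m + 1 = 4 ^ m := by
  unfold third
  have h1 : (3 : ℤ) ∣ 4 ^ m - 1 := by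
    have := sub_dvd_pow_sub_pow (4 : ℤ) 1 m
    rwa [one_pow, show (4 : ℤ) - 1 = 3 by norm_num] at this
  rw [Int.mul_ediv_cancel' h1]
  ring

theorem result :
    (∀ (ψ : List Bool → List ℕ) (ε : ℝ), 0 < ε →
      (∃ η K : ℝ, 0 < η ∧ 0 < K ∧ ∀ Y : ℝ, 2 ≤ Y → ∀ x : ℕ,
        count (fun N => ¬ AllTerms (NoShortCode ψ (2 + ε)) Y N) x ≤ K * x / (Real.log Y) ^ η) ∧
      ∀ F : ℕ → ℝ, Tendsto F atTop atTop → AlmostAll (fun N => AllTerms (NoShortCode ψ (2 + ε)) (F N.natAbs) N)) ∧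
    (∀ (α : ℕ → ℤ) (ε : ℝ), (∀ m : ℕ, (2 : ℤ) ^ m ∣ α (m + 1) - α m) → 0 < ε → ∀ F : ℕ → ℝ, Tendsto F atTop atTop →
      AlmostAll (fun N => AllTerms (fun M => v M ≤ (1 + ε) * ll M ∧
        ∀ m : ℕ, (2 : ℤ) ^ m ∣ M - α m → (m : ℝ) ≤ (1 + ε) * ll M) (F N.natAbs) N)) ∧
    (∀ (α : ℕ → ℤ) (ε : ℝ), (∀ m : ℕ, α m % 2 = 1) → 0 < ε → ε < 1 → ∃ δ K : ℝ, 0 < δ ∧ 0 < K ∧ ∀ x : ℕ, 1 ≤ x →
      count (fun N => ¬ SomeTerm (fun M => ∃ m : ℕ, (1 - ε) * ll M ≤ m ∧ (2 : ℤ) ^ m ∣ M - α m) N) x ≤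
        K * x * Real.exp (-(Real.log x) ^ δ)) ∧
    (∀ ε : ℝ, 0 < ε → ε < 1 → ∃ δ K : ℝ, 0 < δ ∧ 0 < K ∧ ∀ x : ℕ, 1 ≤ x →
      count (fun N => ¬ SomeTerm (fun M => (1 - ε) * ll M ≤ v M) N) x ≤ K * x * Real.exp (-(Real.log x) ^ δ)) := by
  refine ⟨fun ψ ε hε => ?_, fun α ε hα hε F hF => ?_, fun α ε hα h0 h1 => ?_, fun ε h0 h1 => ?_⟩
  · refine all_terms (by linarith) (Run7.h702.BC.small_codes ψ hε) (fun N hN hA r p h1 h2 => ?_)
    by_contra hcon
    apply hA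
    refine ⟨hN, r, p, h1, h2, ?_⟩
    rw [not_le] at hcon
    have e : (2 + ε) * (Run7.h702.BC.LL |(N : ℝ)| / Real.log 2) = (2 + ε) * ll N := rfl
    rw [e]
    change (p.length : ℝ) + (2 + ε) * ll N < (((exponents r N).sum : ℕ) : ℝ)
    linarith
  · -- the union of two small sets
    have hthird : ∀ m : ℕ, (2 : ℤ) ^ m ∣ third (m + 1) - third m := by
      intro m
      have h1 := third_spec m
      have h2 := third_spec (m + 1)
      have h3 : third (m + 1) - third m = 4 ^ m := by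
        rw [pow_succ] at h2
        linarith
      rw [h3, show (4 : ℤ) = 2 * 2 by norm_num, mul_pow]
      exact dvd_mul_right _ _
    have s1 := Run7.h702.BC.small_target (q := 2) le_rfl (by norm_num) hα hε
    have s2 := Run7.h702.BC.small_target (q := 2) le_rfl (by norm_num) hthird hε
    have a1 := (all_terms (by linarith) s1 (P := fun M => ∀ m : ℕ, (2 : ℤ) ^ m ∣ M - α m → (m : ℝ) ≤ (1 + ε) * ll M)
      (fun N _ hA m hm => by
        by_contra hcon
        exact hA ⟨m, not_le.1 hcon, hm⟩)).2 F hF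
    have a2 := (all_terms (by linarith) s2 (P := fun M => (v M : ℝ) ≤ (1 + ε) * ll M)
      (fun N _ hA => by
        by_contra hcon
        apply hA
        refine ⟨v N, not_le.1 hcon, ?_⟩
        have h1 : (2 : ℤ) ^ v N ∣ 3 * N + 1 := (Run7.h702.BC.le_ev (a := v N)).1 le_rfl
        have h2 := third_spec (v N)
        have h3 : (2 : ℤ) ^ v N ∣ 4 ^ v N := by
          rw [show (4 : ℤ) = 2 * 2 by norm_num, mul_pow]; exact dvd_mul_right _ _
        have h4 : (2 : ℤ) ^ v N ∣ 3 * (N - third (v N)) := by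
          have : 3 * (N - third (v N)) = (3 * N + 1) - 4 ^ v N := by linarith
          rw [this]
          exact dvd_sub h1 h3
        have h5 : IsCoprime ((2 : ℤ) ^ v N) 3 := IsCoprime.pow_left (by norm_num)
        exact h5.dvd_of_dvd_mul_left h4)).2 F hF
    -- together
    unfold AlmostAll at a1 a2 ⊢
    have h3 := a1.add a2
    rw [add_zero] at h3
    refine squeeze_zero (fun x => by unfold count; positivity) (fun x => ?_) h3
    rw [← add_div]
    apply div_le_div_of_nonneg_right _ (Nat.cast_nonneg x)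
    unfold count
    have hfin : ∀ R : ℕ → Prop, {n : ℕ | n ≤ x ∧ n % 2 = 1 ∧ R n}.Finite := fun R =>
      (Set.finite_Iic x).subset (fun n hn => hn.1)
    have hsub : {n : ℕ | n ≤ x ∧ n % 2 = 1 ∧ ¬ AllTerms (fun M => v M ≤ (1 + ε) * ll M ∧
        ∀ m : ℕ, (2 : ℤ) ^ m ∣ M - α m → (m : ℝ) ≤ (1 + ε) * ll M) (F (-(n : ℤ)).natAbs) (-(n : ℤ))} ⊆
        {n : ℕ | n ≤ x ∧ n % 2 = 1 ∧ ¬ AllTerms (fun M => ∀ m : ℕ, (2 : ℤ) ^ m ∣ M - α m → (m : ℝ) ≤ (1 + ε) * ll M)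
          (F (-(n : ℤ)).natAbs) (-(n : ℤ))} ∪
        {n : ℕ | n ≤ x ∧ n % 2 = 1 ∧ ¬ AllTerms (fun M => (v M : ℝ) ≤ (1 + ε) * ll M)
          (F (-(n : ℤ)).natAbs) (-(n : ℤ))} := by
      rintro n ⟨g1, g2, g3⟩
      by_contra hcon
      rw [Set.mem_union, not_or] at hcon
      have c1 : AllTerms (fun M => ∀ m : ℕ, (2 : ℤ) ^ m ∣ M - α m → (m : ℝ) ≤ (1 + ε) * ll M)
          (F (-(n : ℤ)).natAbs) (-(n : ℤ)) := by
        by_contra h
        exact hcon.1 ⟨g1, g2, h⟩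
      have c2 : AllTerms (fun M => (v M : ℝ) ≤ (1 + ε) * ll M) (F (-(n : ℤ)).natAbs) (-(n : ℤ)) := by
        by_contra h
        exact hcon.2 ⟨g1, g2, h⟩
      apply g3
      obtain ⟨k, k1, k2⟩ := c1
      obtain ⟨k', k3, k4⟩ := c2
      have hk : k = k' := by
        rcases lt_trichotomy k k' with h | h | h
        · have := (k4 k h).1
          linarith
        · exact h
        · have := (k2 k' h).1
          linarith
      subst hk
      exact ⟨k, k1, fun i hi => ⟨(k2 i hi).1, (k4 i hi).2, (k2 i hi).2⟩⟩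
    exact_mod_cast (Set.ncard_le_ncard hsub ((hfin _).union (hfin _))).trans (Set.ncard_union_le _ _)
  · exact some_term h0 h1 hα (fun N m _ h2 h3 => ⟨m, h2, h3⟩)
  · refine some_term h0 h1 (α := fun m => third (m + 1)) (fun m => ?_) (fun N m _ h2 h3 => h2.trans ?_)
    · have h4 := third_spec (m + 1)
      have h5 : (4 : ℤ) ^ (m + 1) = 2 * (2 * 4 ^ m) := by rw [pow_succ]; ring
      change third (m + 1) % 2 = 1
      omega
    · have h4 := third_spec (m + 1)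
      have h5 : (2 : ℤ) ^ m ∣ 4 ^ (m + 1) := by
        rw [show (4 : ℤ) = 2 * 2 by norm_num, mul_pow, pow_succ 2 m]
        exact ⟨2 * (2 ^ m * 2), by ring⟩
      have h6 : (2 : ℤ) ^ m ∣ 3 * N + 1 := by
        have e : 3 * N + 1 = 3 * (N - third (m + 1)) + 4 ^ (m + 1) := by linarith
        rw [e]
        exact dvd_add (h3.mul_left 3) h5
      exact_mod_cast (Run7.h702.BC.le_ev (N := N) (a := m)).2 h6

end Pool.Agent.Results.MP_005f52_nt.ExponentsOfAllTerms
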