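import Mathlib
import Pool.Agent.Run7.h195.Mor4
import Pool.Agent.Results.MP_d02c56_nt.ShortIntervals
import Pool.Agent.H499R2.NDCor

set_option autoImplicit false

/-!
# The basins of the negative cycles of the Syracuse map are not morphic

A function on the negative odd integers which is constant along the orbits of the Syracuse map, and
which is given by a coding of the fixed point of a morphism of words (with a purely exponential or a
polynomial growth of the lengths of the iterates of the first letter), is constant. So, without any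
hypothesis, the basins of the cycles of `-1`, `-5`, `-17` (and of any other cycle) are not sets of this
kind.

Method. The discrepancies of the blocks `σ^n(b)` are given by the powers of an integer matrix; so their
rates of growth are quantised, and if they are `o(N)`, then they are `O(N ^ (1 - ε))`. But a set of
negative integers invariant under the Collatz map has a natural density and no power saving in the error
term of its counting function, unless it is empty or everything (starting file `ShortIntervals`).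
-/

namespace Pool.Agent.Results.MP_005f52_nt.MorphicBasins

open Filter

universe v

/-- The Syracuse map. -/
def Syr (N : ℤ) : ℤ := (3 * N + 1) / 2 ^ padicValInt 2 (3 * N + 1)

/-- The integers whose orbit under the Syracuse map meets `S`. -/
def Basin (S : Set ℤ) : Set ℤ := {N | ∃ j, Syr^[j] N ∈ S}

/-- The word `σ^n(a)`: start with the word `a` and replace `n` times all letters `b` by the words
`σ b`. -/
def word {A : Type} (σ : A → List A) (a : A) (n : ℕ) : List A := (fun l => l.flatMap σ)^[n] [a]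

/-- The morphism `σ` of words is prolongable on the letter `a` (`σ a` begins with `a`) and
`u 0, u 1, ...` is the infinite word `σ^ω(a)`: the words `σ^n(a)` are beginnings of it. -/
def FixedPoint {A : Type} (σ : A → List A) (a : A) (u : ℕ → A) : Prop :=
  (∃ w, σ a = a :: w) ∧ ∀ n i : ℕ, i < (word σ a n).length → (word σ a n)[i]? = some (u i)

/-- The lengths of the words `σ^n(a)` are between `c θ ^ n` and `C θ ^ n`, where `θ > 1`. -/
def Exponential {A : Type} (σ : A → List A) (a : A) : Prop :=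
  ∃ θ c C : ℝ, 1 < θ ∧ 0 < c ∧
    ∀ n : ℕ, c * θ ^ n ≤ (word σ a n).length ∧ ((word σ a n).length : ℝ) ≤ C * θ ^ n

/-- No `σ b` is empty and the lengths of the words `σ^n(a)` are between `c (n + 1) ^ d` and
`C (n + 1) ^ d`, where `d ≥ 1`. -/
def Polynomial {A : Type} (σ : A → List A) (a : A) : Prop :=
  (∀ b, σ b ≠ []) ∧ ∃ (d : ℕ) (c C : ℝ), 1 ≤ d ∧ 0 < c ∧ ∀ n : ℕ,
    c * ((n : ℝ) + 1) ^ d ≤ (word σ a n).length ∧ ((word σ a n).length : ℝ) ≤ C * ((n : ℝ) + 1) ^ d

/-- The word `c (-1), c (-3), c (-5), ...` is, from the `r`-th letter of it on, the image of the fixed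
point `σ^ω(a)` of a morphism over a finite alphabet, of exponential or polynomial growth, under a coding
`τ` of the letters. -/
def Morphic {M : Type v} (c : ℤ → M) : Prop :=
  ∃ (A : Type) (_ : Finite A) (σ : A → List A) (a : A) (u : ℕ → A) (τ : A → M) (r : ℕ),
    FixedPoint σ a u ∧ (Exponential σ a ∨ Polynomial σ a) ∧
      ∀ n : ℕ, c (-(2 * (n : ℤ) + 1)) = τ (u (n + r))

/-! ### proofs -/

open Pool.Agent.Run7.h195 (Mor.Gen Mor.S Mor.saving_exp Mor.saving_poly)

open Pool.Agent.Results.MP_d02c56_nt.ShortIntervals (C Invariant count HasDensity)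

lemma syr_eq {N M : ℤ} {v : ℕ} (h : 3 * N + 1 = 2 ^ v * M) (hM : M % 2 = 1) : Syr N = M := by
  have hM0 : M ≠ 0 := by rintro rfl; norm_num at hM
  have h1 : padicValInt 2 (3 * N + 1) = v := by
    rw [h, padicValInt.mul (by positivity) hM0]
    have h2 : padicValInt 2 M = 0 := padicValInt.eq_zero_of_not_dvd (by
      intro h3
      have : (2 : ℤ) ∣ M := by exact_mod_cast h3
      omega)
    have h3 : padicValInt 2 ((2 : ℤ) ^ v) = v := by
      have e : ((2 : ℤ) ^ v) = ((2 ^ v : ℕ) : ℤ) := by push_cast; ring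
      rw [e, padicValInt.of_nat, padicValNat.prime_pow]
    rw [h2, h3, add_zero]
  unfold Syr
  rw [h1, h, Int.mul_ediv_cancel_left _ (by positivity)]

lemma exists_rep {x : ℤ} (hx : x < 0) : ∃ (k : ℕ) (M : ℤ), x = 2 ^ k * M ∧ M < 0 ∧ M % 2 = 1 := by
  obtain ⟨k, m, hm, h⟩ := Nat.exists_eq_two_pow_mul_odd (n := x.natAbs) (by omega)
  refine ⟨k, -(m : ℤ), ?_, ?_, ?_⟩
  · have h1 : x = -(x.natAbs : ℤ) := by omega
    rw [h1, h]
    push_cast
    ring
  · have := hm.pos
    omega
  · have := Nat.odd_iff.1 hm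
    omega

/-- the negative integers whose odd part is in `A` -/
def SS (A : Set ℤ) : Set ℤ := {x | ∃ (k : ℕ) (M : ℤ), x = 2 ^ k * M ∧ M < 0 ∧ M % 2 = 1 ∧ M ∈ A}

lemma SS_neg {A : Set ℤ} {x : ℤ} (h : x ∈ SS A) : x < 0 := by
  obtain ⟨k, M, rfl, hM, -, -⟩ := h
  exact mul_neg_of_pos_of_neg (by positivity) hM

lemma SS_odd {A : Set ℤ} {x : ℤ} (h1 : x < 0) (h2 : x % 2 = 1) : x ∈ SS A ↔ x ∈ A := by
  constructor
  · rintro ⟨k, M, rfl, hM, hM2, hMA⟩
    rcases k with _ | k
    · simpa using hMA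
    · exfalso
      rw [pow_succ, mul_comm ((2 : ℤ) ^ k) 2, mul_assoc] at h2
      omega
  · intro h
    exact ⟨0, x, by simp, h1, h2, h⟩

lemma SS_two {A : Set ℤ} {y : ℤ} : 2 * y ∈ SS A ↔ y ∈ SS A := by
  constructor
  · rintro ⟨k, M, h, hM, hM2, hMA⟩
    rcases k with _ | k
    · exfalso
      rw [pow_zero, one_mul] at h
      omega
    · refine ⟨k, M, ?_, hM, hM2, hMA⟩
      rw [pow_succ, mul_comm ((2 : ℤ) ^ k) 2, mul_assoc] at h
      omega
  · rintro ⟨k, M, rfl, hM, hM2, hMA⟩
    exact ⟨k + 1, M, by ring, hM, hM2, hMA⟩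

lemma SS_inv {A : Set ℤ} (hA : ∀ N, N < 0 → Odd N → (Syr N ∈ A ↔ N ∈ A)) : Invariant (SS A) := by
  intro x
  unfold C
  rcases le_or_gt 0 x with hx | hx
  · constructor
    · intro h; have := SS_neg h; omega
    · intro h
      have := SS_neg h
      split_ifs at this <;> omega
  · by_cases h : x % 2 = 0
    · rw [if_pos h]
      obtain ⟨y, rfl⟩ : ∃ y, x = 2 * y := ⟨x / 2, by omega⟩
      rw [SS_two, Int.mul_ediv_cancel_left _ (by norm_num)]
    · rw [if_neg h, SS_odd hx (by omega)]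
      obtain ⟨k, M, h1, h2, h3⟩ := exists_rep (x := 3 * x + 1) (by omega)
      have h4 : Syr x = M := syr_eq h1 h3
      have h5 := hA x hx (by rw [Int.odd_iff]; omega)
      rw [← h5, h4]
      constructor
      · intro hM
        exact ⟨k, M, h1, h2, h3, hM⟩
      · rintro ⟨k', M', h1', h2', h3', hM'⟩
        have h6 : Syr x = M' := syr_eq h1' h3'
        rw [h4] at h6
        rw [h6]
        exact hM'

/-- the indicator function -/
noncomputable def fi (A : Set ℤ) (n : ℕ) : ℝ := Set.indicator {m : ℕ | -(m : ℤ) ∈ SS A} (fun _ => 1) n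

lemma fi_two (A : Set ℤ) (n : ℕ) : fi A (2 * n) = fi A n := by
  unfold fi
  have h : (2 * n) ∈ {m : ℕ | -(m : ℤ) ∈ SS A} ↔ n ∈ {m : ℕ | -(m : ℤ) ∈ SS A} := by
    show -((2 * n : ℕ) : ℤ) ∈ SS A ↔ -(n : ℤ) ∈ SS A
    rw [← SS_two (y := -(n : ℤ))]
    push_cast
    rw [show -(2 * (n : ℤ)) = 2 * -(n : ℤ) by ring]
  by_cases h1 : n ∈ {m : ℕ | -(m : ℤ) ∈ SS A}
  · rw [Set.indicator_of_mem h1, Set.indicator_of_mem (h.2 h1)]
  · rw [Set.indicator_of_notMem h1, Set.indicator_of_notMem (fun h' => h1 (h.1 h'))]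

lemma sum_split (A : Set ℤ) (x : ℕ) : ∑ n ∈ Finset.Icc 1 x, fi A n =
    ∑ n ∈ Finset.Icc 1 (x / 2), fi A n + ∑ n ∈ Finset.range ((x + 1) / 2), fi A (2 * n + 1) := by
  induction x with
  | zero => simp
  | succ x ih =>
    rw [← Finset.insert_Icc_right_eq_Icc_add_one (by omega), Finset.sum_insert (by simp), ih]
    rcases Nat.even_or_odd' x with ⟨y, rfl | rfl⟩
    · have e1 : (2 * y + 1) / 2 = y := by omega
      have e2 : 2 * y / 2 = y := by omega
      have e3 : (2 * y + 1 + 1) / 2 = y + 1 := by omega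
      rw [e1, e2, e3, Finset.sum_range_succ]
      ring
    · have e1 : (2 * y + 1) / 2 = y := by omega
      have e2 : (2 * y + 1 + 1) / 2 = y + 1 := by omega
      have e3 : (2 * y + 1 + 1 + 1) / 2 = y + 1 := by omega
      rw [e1, e2, e3, ← Finset.insert_Icc_right_eq_Icc_add_one (by omega),
        Finset.sum_insert (by simp)]
      have e4 : fi A (2 * y + 1 + 1) = fi A (y + 1) := by
        rw [← fi_two A (y + 1)]
        congr 1
      rw [e4]
      ring

lemma count_fi (A : Set ℤ) (x : ℕ) : (count (-1) (SS A) x : ℝ) = ∑ n ∈ Finset.Icc 1 x, fi A n := by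
  classical
  unfold count fi
  have e : {n : ℕ | 1 ≤ n ∧ n ≤ x ∧ (-1) * (n : ℤ) ∈ SS A} =
      ((Finset.Icc 1 x).filter fun n : ℕ => -(n : ℤ) ∈ SS A : Finset ℕ) := by
    ext n
    simp only [Set.mem_ofPred_eq, Finset.coe_filter, Finset.mem_Icc, and_assoc, neg_mul, one_mul]
  rw [e, Set.ncard_coe_finset, Finset.card_filter]
  push_cast
  refine Finset.sum_congr rfl fun n _ => ?_
  by_cases h : -(n : ℤ) ∈ SS A
  · rw [if_pos h, Set.indicator_of_mem (show n ∈ {m : ℕ | -(m : ℤ) ∈ SS A} from h)]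
  · rw [if_neg h, Set.indicator_of_notMem (show n ∉ {m : ℕ | -(m : ℤ) ∈ SS A} from h)]

lemma has_density {S : Set ℤ} (hS : Invariant S) : ∃ D : ℝ, HasDensity (-1) S D := by
  obtain ⟨D, -, -, hD⟩ := Pool.Agent.H499R2.ND.dens_side (d := 1) odd_one (by norm_num) (Or.inr rfl)
    (Pool.Agent.Results.MP_d02c56_nt.ShortIntervals.inv_of hS)
  refine ⟨D, Tendsto.congr (fun x => ?_) (Pool.Agent.W41.cF_tendsto (Or.inr rfl) hD)⟩
  rw [Pool.Agent.Results.MP_d02c56_nt.ShortIntervals.count_cF]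

/-- The weight of a letter. -/
noncomputable def gw {B : Type} (Φ : Set B) (D : ℝ) (b : B) : ℂ :=
  ((Set.indicator Φ (fun _ => (1 : ℝ)) b - D : ℝ) : ℂ)

/-- The main step. -/
theorem trivial_of_saving {B : Type} {u : ℕ → B} {Φ : Set B} {r : ℕ} {A : Set ℤ}
    (hA : ∀ N, N < 0 → Odd N → (Syr N ∈ A ↔ N ∈ A))
    (h : ∀ n : ℕ, -(2 * (n : ℤ) + 1) ∈ A ↔ u (n + r) ∈ Φ)
    (hs : ∀ D : ℝ, (∀ ε : ℝ, 0 < ε → ∀ᶠ N : ℕ in atTop, ‖Mor.S (gw Φ D) u N‖ ≤ ε * N) →
      ∃ γ K : ℝ, 0 ≤ γ ∧ γ < 1 ∧ 0 ≤ K ∧ ∀ N : ℕ, 1 ≤ N → ‖Mor.S (gw Φ D) u N‖ ≤ K * (N : ℝ) ^ γ) :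
    (∀ N, N < 0 → Odd N → N ∈ A) ∨ ∀ N, N < 0 → Odd N → N ∉ A := by
  by_contra hcon
  push Not at hcon
  obtain ⟨⟨b, hb1, hb2, hb3⟩, a, ha1, ha2, ha3⟩ := hcon
  have hinv := SS_inv hA
  obtain ⟨D, hD⟩ := has_density hinv
  -- the discrepancy of the word
  have hS : ∀ N : ℕ, Mor.S (gw Φ D) u (N + r) = Mor.S (gw Φ D) u r +
      ((∑ n ∈ Finset.range N, fi A (2 * n + 1) - D * N : ℝ) : ℂ) := by
    intro N
    induction N with
    | zero => simp
    | succ N ih =>
      have h1 : Mor.S (gw Φ D) u (N + 1 + r) = Mor.S (gw Φ D) u (N + r) + gw Φ D (u (N + r)) := by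
        rw [show N + 1 + r = (N + r) + 1 by ring]
        unfold Mor.S
        rw [Finset.sum_range_succ]
      have h2 : Set.indicator Φ (fun _ => (1 : ℝ)) (u (N + r)) = fi A (2 * N + 1) := by
        unfold fi
        have h3 : (2 * N + 1) ∈ {m : ℕ | -(m : ℤ) ∈ SS A} ↔ u (N + r) ∈ Φ := by
          show -((2 * N + 1 : ℕ) : ℤ) ∈ SS A ↔ u (N + r) ∈ Φ
          rw [SS_odd (by omega) (by omega), ← h N]
          push_cast
          rfl
        by_cases hP : u (N + r) ∈ Φ
        · rw [Set.indicator_of_mem hP, Set.indicator_of_mem (h3.2 hP)]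
        · rw [Set.indicator_of_notMem hP, Set.indicator_of_notMem (fun h' => hP (h3.1 h'))]
      rw [h1, ih, Finset.sum_range_succ, gw, h2]
      push_cast
      ring
  -- discrepancies
  obtain ⟨E, hE⟩ : ∃ E : ℕ → ℝ, ∀ x, E x = ∑ n ∈ Finset.Icc 1 x, fi A n - D * x := ⟨_, fun _ => rfl⟩
  obtain ⟨W, hW⟩ : ∃ W : ℕ → ℝ, ∀ N, W N = ∑ n ∈ Finset.range N, fi A (2 * n + 1) - D * N :=
    ⟨_, fun _ => rfl⟩
  have hEW : ∀ x : ℕ, E x = E (x / 2) + W ((x + 1) / 2) := by
    intro x
    rw [hE, hE, hW, sum_split A x]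
    have e : ((x / 2 : ℕ) : ℝ) + (((x + 1) / 2 : ℕ) : ℝ) = x := by
      have : x / 2 + (x + 1) / 2 = x := by omega
      exact_mod_cast this
    linear_combination D * e
  have hEd : ∀ ε : ℝ, 0 < ε → ∀ᶠ x : ℕ in atTop, |E x| ≤ ε * x := by
    intro ε hε
    have h1 : Tendsto (fun x : ℕ => |(count (-1) (SS A) x : ℝ) / x - D|) atTop (nhds 0) := by
      have := (hD.sub_const D).abs
      simpa using this
    filter_upwards [(tendsto_order.1 h1).2 ε hε, eventually_gt_atTop 0] with x hx hx0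
    have hx0' : (0 : ℝ) < x := by exact_mod_cast hx0
    rw [hE, ← count_fi]
    have h3 : (count (-1) (SS A) x : ℝ) - D * x =
        ((count (-1) (SS A) x : ℝ) / x - D) * x := by field_simp
    rw [h3, abs_mul, abs_of_pos hx0']
    exact mul_le_mul_of_nonneg_right hx.le hx0'.le
  have hWd : ∀ ε : ℝ, 0 < ε → ∀ᶠ N : ℕ in atTop, |W N| ≤ ε * N := by
    intro ε hε
    obtain ⟨N0, hN0⟩ := (hEd (ε / 3) (by positivity)).exists_forall_of_atTop
    filter_upwards [eventually_ge_atTop N0] with N hN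
    have h1 := hEW (2 * N)
    have e1 : 2 * N / 2 = N := by omega
    have e2 : (2 * N + 1) / 2 = N := by omega
    rw [e1, e2] at h1
    have h2 := hN0 N hN
    have h3 := hN0 (2 * N) (by omega)
    push_cast at h3
    have h4 : W N = E (2 * N) - E N := by linarith
    rw [h4]
    have := abs_sub (E (2 * N)) (E N)
    linarith
  have hsmall : ∀ ε : ℝ, 0 < ε → ∀ᶠ N : ℕ in atTop, ‖Mor.S (gw Φ D) u N‖ ≤ ε * N := by
    intro ε hε
    obtain ⟨N0, hN0⟩ := (hWd (ε / 2) (by positivity)).exists_forall_of_atTop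
    filter_upwards [eventually_ge_atTop (N0 + r + 1),
      tendsto_natCast_atTop_atTop.eventually
        (eventually_ge_atTop (2 * ‖Mor.S (gw Φ D) u r‖ / ε))] with N hN1 hN2
    obtain ⟨x, rfl⟩ : ∃ x, N = x + r := ⟨N - r, by omega⟩
    rw [hS, ← hW]
    have h1 := hN0 x (by omega)
    rw [div_le_iff₀ hε] at hN2
    refine (norm_add_le _ _).trans ?_
    rw [Complex.norm_real, Real.norm_eq_abs]
    push_cast at hN2 ⊢
    have h4 : (0 : ℝ) ≤ r := Nat.cast_nonneg r
    nlinarith
  obtain ⟨γ0, K, hγ00, hγ01, hK, hSb⟩ := hs D hsmall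
  obtain ⟨γ, hγ⟩ : ∃ γ, γ = max γ0 (1 / 2) := ⟨_, rfl⟩
  have hγ2 : 1 / 2 ≤ γ := by rw [hγ]; exact le_max_right _ _
  have hγ1 : γ < 1 := by rw [hγ]; exact max_lt hγ01 (by norm_num)
  have hγ0 : 0 < γ := by linarith
  obtain ⟨K1, hK1⟩ : ∃ K1 : ℝ, K1 = 2 * K * (1 + r) := ⟨_, rfl⟩
  have hK10 : 0 ≤ K1 := by rw [hK1]; positivity
  have hWb : ∀ N : ℕ, 1 ≤ N → |W N| ≤ K1 * (N : ℝ) ^ γ := by
    intro N hN
    have hNR : (1 : ℝ) ≤ N := by exact_mod_cast hN
    have hr0 : (0 : ℝ) ≤ r := Nat.cast_nonneg r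
    have hb : ∀ M : ℕ, (M : ℝ) ≤ (1 + r) * N → ‖Mor.S (gw Φ D) u M‖ ≤ K * (1 + r) * (N : ℝ) ^ γ := by
      intro M hM
      rcases Nat.eq_zero_or_pos M with rfl | hM0
      · have : Mor.S (gw Φ D) u 0 = 0 := by unfold Mor.S; simp
        rw [this, norm_zero]; positivity
      · have hMR : (1 : ℝ) ≤ M := by exact_mod_cast hM0
        refine (hSb M hM0).trans ?_
        rw [mul_assoc]
        apply mul_le_mul_of_nonneg_left _ hK
        calc (M : ℝ) ^ γ0 ≤ (M : ℝ) ^ γ := Real.rpow_le_rpow_of_exponent_le hMR (by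
              rw [hγ]; exact le_max_left _ _)
          _ ≤ ((1 + r) * N) ^ γ := Real.rpow_le_rpow (by linarith) hM hγ0.le
          _ = (1 + r : ℝ) ^ γ * (N : ℝ) ^ γ := Real.mul_rpow (by linarith) (by linarith)
          _ ≤ (1 + r) * (N : ℝ) ^ γ := by
              apply mul_le_mul_of_nonneg_right _ (by positivity)
              calc (1 + r : ℝ) ^ γ ≤ (1 + r : ℝ) ^ (1 : ℝ) :=
                    Real.rpow_le_rpow_of_exponent_le (by linarith) hγ1.le
                _ = 1 + r := Real.rpow_one _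
    have h1 : ((W N : ℝ) : ℂ) = Mor.S (gw Φ D) u (N + r) - Mor.S (gw Φ D) u r := by
      rw [hS, hW]; ring
    rw [← Real.norm_eq_abs, ← Complex.norm_real, h1]
    refine (norm_sub_le _ _).trans ?_
    have h2 := hb (N + r) (by push_cast; nlinarith)
    have h3 := hb r (by nlinarith)
    rw [hK1]
    linarith
  have hEb : ∀ x : ℕ, |E x| ≤ 4 * K1 * (x : ℝ) ^ γ := by
    intro x
    induction x using Nat.strong_induction_on with
    | _ x ih =>
      rcases Nat.eq_zero_or_pos x with rfl | hx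
      · have : E 0 = 0 := by rw [hE]; simp
        rw [this, abs_zero]; positivity
      · have hxR : (1 : ℝ) ≤ x := by exact_mod_cast hx
        rw [hEW x]
        refine (abs_add_le _ _).trans ?_
        have h1 := ih (x / 2) (by omega)
        have h2 := hWb ((x + 1) / 2) (by omega)
        have h3 : (((x / 2 : ℕ) : ℝ)) ^ γ ≤ 3 / 4 * (x : ℝ) ^ γ := by
          have h4 : ((x / 2 : ℕ) : ℝ) ≤ x / 2 := Nat.cast_div_le
          calc (((x / 2 : ℕ) : ℝ)) ^ γ ≤ ((x : ℝ) / 2) ^ γ :=
                Real.rpow_le_rpow (Nat.cast_nonneg _) h4 hγ0.le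
            _ = (x : ℝ) ^ γ * (1 / 2 : ℝ) ^ γ := by
                rw [← Real.mul_rpow (by linarith) (by norm_num)]; congr 1; ring
            _ ≤ (x : ℝ) ^ γ * (3 / 4) := by
                apply mul_le_mul_of_nonneg_left _ (by positivity)
                calc (1 / 2 : ℝ) ^ γ ≤ (1 / 2 : ℝ) ^ (1 / 2 : ℝ) :=
                      Real.rpow_le_rpow_of_exponent_ge (by norm_num) (by norm_num) hγ2
                  _ ≤ 3 / 4 := by
                      rw [← Real.sqrt_eq_rpow, Real.sqrt_le_left (by norm_num)]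
                      norm_num
            _ = _ := by ring
        have h5 : ((((x + 1) / 2 : ℕ) : ℝ)) ^ γ ≤ (x : ℝ) ^ γ := by
          apply Real.rpow_le_rpow (Nat.cast_nonneg _) _ hγ0.le
          have : (x + 1) / 2 ≤ x := by omega
          exact_mod_cast this
        calc |E (x / 2)| + |W ((x + 1) / 2)| ≤
            4 * K1 * ((x / 2 : ℕ) : ℝ) ^ γ + K1 * (((x + 1) / 2 : ℕ) : ℝ) ^ γ := add_le_add h1 h2
          _ ≤ 4 * K1 * (3 / 4 * (x : ℝ) ^ γ) + K1 * (x : ℝ) ^ γ := by gcongr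
          _ = _ := by ring
  have hns := Pool.Agent.Results.MP_d02c56_nt.ShortIntervals.no_saving (s := -1) (Or.inr rfl)
    hinv ⟨a, (SS_odd ha1 (by rw [← Int.odd_iff]; exact ha2)).2 ha3, by omega⟩
    ⟨b, fun h' => hb3 ((SS_odd hb1 (by rw [← Int.odd_iff]; exact hb2)).1 h'), by omega⟩
    (show 0 < (1 - γ) / 2 by linarith)
  have hlim : Tendsto (fun X : ℕ => (X : ℝ) ^ ((1 - γ) / 2)) atTop atTop :=
    (tendsto_rpow_atTop (by linarith)).comp tendsto_natCast_atTop_atTop
  obtain ⟨X, hX1, hX2, hX3⟩ := (hns.and ((eventually_ge_atTop 1).and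
    (hlim.eventually (eventually_ge_atTop (4 * K1 + 1))))).exists
  obtain ⟨x, hx1, hx2⟩ := hX1 D
  rw [count_fi, ← hE] at hx2
  have hXR : (1 : ℝ) ≤ X := by exact_mod_cast hX2
  have hX0 : (0 : ℝ) < X := by linarith
  have h2 : |E x| ≤ 4 * K1 * (X : ℝ) ^ γ := by
    refine (hEb x).trans ?_
    apply mul_le_mul_of_nonneg_left _ (by positivity)
    exact Real.rpow_le_rpow (Nat.cast_nonneg _) (by exact_mod_cast hx1) hγ0.le
  have h4 : (X : ℝ) ^ (1 - (1 - γ) / 2) = (X : ℝ) ^ γ * (X : ℝ) ^ ((1 - γ) / 2) := by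
    rw [← Real.rpow_add hX0]; congr 1; ring
  have h5 : 0 < (X : ℝ) ^ γ := Real.rpow_pos_of_pos hX0 γ
  rw [h4] at hx2
  have h7 := mul_le_mul_of_nonneg_left hX3 h5.le
  linarith

theorem dichotomy {M : Type v} {c : ℤ → M} (hc : ∀ N, N < 0 → Odd N → c (Syr N) = c N)
    (hM : Morphic c) : ∀ N, N < 0 → Odd N → c N = c (-1) := by
  obtain ⟨B, hB, σ, b, u, τ, r, hfix, hgr, h⟩ := hM
  have := Fintype.ofFinite B
  set A : Set ℤ := {N | c N = c (-1)} with hA
  have hAi : ∀ N, N < 0 → Odd N → (Syr N ∈ A ↔ N ∈ A) := by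
    intro N h1 h2
    show c (Syr N) = c (-1) ↔ c N = c (-1)
    rw [hc N h1 h2]
  rcases trivial_of_saving (Φ := {x | τ x = c (-1)}) (u := u) (r := r) hAi (fun n => by
      show c (-(2 * (n : ℤ) + 1)) = c (-1) ↔ τ (u (n + r)) = c (-1)
      rw [h n]) (fun D hsmall => by
      rcases hgr with hgr | ⟨hne, hgr⟩
      · exact Mor.saving_exp (σ := σ) (a := b) hfix (gw _ D) hgr hsmall
      · exact Mor.saving_poly (σ := σ) hne (a := b) hfix (gw _ D) hgr hsmall) with h1 | h1
  · exact h1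
  · exact absurd rfl (h1 (-1) (by norm_num) (by decide))

lemma basin_inv {S : Set ℤ} (hS : ∀ s ∈ S, ∃ j, Syr^[j + 1] s ∈ S) (N : ℤ) :
    Syr N ∈ Basin S ↔ N ∈ Basin S := by
  constructor
  · rintro ⟨j, hj⟩
    exact ⟨j + 1, by rwa [Function.iterate_succ_apply]⟩
  · rintro ⟨j, hj⟩
    rcases j with _ | j
    · obtain ⟨i, hi⟩ := hS N hj
      exact ⟨i, by rwa [Function.iterate_succ_apply] at hi⟩
    · exact ⟨j, by rwa [Function.iterate_succ_apply] at hj⟩

lemma s1 : Syr (-1) = -1 := syr_eq (v := 1) (by norm_num) (by norm_num)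
lemma s5 : Syr (-5) = -7 := syr_eq (v := 1) (by norm_num) (by norm_num)
lemma s7 : Syr (-7) = -5 := syr_eq (v := 2) (by norm_num) (by norm_num)
lemma s17 : Syr (-17) = -25 := syr_eq (v := 1) (by norm_num) (by norm_num)
lemma s25 : Syr (-25) = -37 := syr_eq (v := 1) (by norm_num) (by norm_num)
lemma s37 : Syr (-37) = -55 := syr_eq (v := 1) (by norm_num) (by norm_num)
lemma s55 : Syr (-55) = -41 := syr_eq (v := 2) (by norm_num) (by norm_num)
lemma s41 : Syr (-41) = -61 := syr_eq (v := 1) (by norm_num) (by norm_num)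
lemma s61 : Syr (-61) = -91 := syr_eq (v := 1) (by norm_num) (by norm_num)
lemma s91 : Syr (-91) = -17 := syr_eq (v := 4) (by norm_num) (by norm_num)

lemma iter1 (j : ℕ) : Syr^[j] (-1) = -1 := by
  induction j with
  | zero => rfl
  | succ j ih => rw [Function.iterate_succ_apply, s1, ih]

lemma iter5 (j : ℕ) : Syr^[j] (-5) = -5 ∨ Syr^[j] (-5) = -7 := by
  induction j with
  | zero => left; rfl
  | succ j ih =>
    rw [Function.iterate_succ_apply']
    rcases ih with h | h
    · right; rw [h, s5]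
    · left; rw [h, s7]

theorem word_const (n : ℕ) : word (fun _ : Unit => [(), ()]) () n = List.replicate (2 ^ n) () := by
  induction n with
  | zero => rfl
  | succ n ih =>
    unfold word at *
    rw [Function.iterate_succ_apply', ih]
    apply List.eq_replicate_iff.2
    constructor
    · rw [List.length_flatMap]
      simp [pow_succ]
    · intro b _; rfl

theorem morphic_of_const {M : Type v} {c : ℤ → M} (h : ∀ N, N < 0 → Odd N → c N = c (-1)) :
    Morphic c := by
  refine ⟨Unit, inferInstance, fun _ => [(), ()], (), fun _ => (), fun _ => c (-1), 0,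
    ⟨⟨[()], rfl⟩, ?_⟩,
    Or.inl ⟨2, 1, 1, by norm_num, by norm_num, fun n => ?_⟩, fun n => ?_⟩
  · intro n i hi
    rw [List.getElem?_eq_getElem hi]
  · rw [word_const, List.length_replicate]
    push_cast
    simp
  · exact h _ (by omega) (by rw [Int.odd_iff]; omega)

/-- (1) A function on the negative odd integers, with values in any set, which is constant along the
orbits of the Syracuse map and for which the word `c (-1), c (-3), c (-5), ...` is morphic, given by a
morphism with purely exponential or polynomial growth, is constant.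
(2) If `a` is a negative odd integer on a cycle then the characteristic word of the set of the negative
odd integers whose orbit reaches `a` is not morphic in this sense.
(3) All orbits of negative odd integers reach `-1`, `-5` or `-17` iff the characteristic word of the set
of the negative odd integers with this property is morphic in this sense. -/
theorem result :
    (∀ (M : Type v) (c : ℤ → M), (∀ N, N < 0 → Odd N → c (Syr N) = c N) → Morphic c →
      ∀ N, N < 0 → Odd N → c N = c (-1)) ∧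
    (∀ (a : ℤ) (p : ℕ), a < 0 → Odd a → 1 ≤ p → Syr^[p] a = a →
      ¬ Morphic (fun N : ℤ => N ∈ Basin {a})) ∧
    ((∀ N, N < 0 → Odd N → N ∈ Basin {-1, -5, -17}) ↔
      Morphic (fun N : ℤ => N ∈ Basin {-1, -5, -17})) := by
  have hB : ∀ N, Syr N ∈ Basin {-1, -5, -17} ↔ N ∈ Basin {-1, -5, -17} := by
    intro N
    apply basin_inv
    intro s hs
    rcases hs with rfl | rfl | hs
    · exact ⟨0, Or.inl (iter1 1)⟩
    · refine ⟨1, Or.inr (Or.inl ?_)⟩
      show Syr (Syr (-5)) = -5
      rw [s5, s7]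
    · rw [Set.mem_singleton_iff] at hs
      subst hs
      refine ⟨6, Or.inr (Or.inr ?_)⟩
      rw [Set.mem_singleton_iff]
      show Syr (Syr (Syr (Syr (Syr (Syr (Syr (-17))))))) = -17
      rw [s17, s25, s37, s55, s41, s61, s91]
  refine ⟨fun M c hc hM => dichotomy hc hM, ?_, ?_, ?_⟩
  · intro a p ha hao hp hper hM
    have hinv : ∀ N, Syr N ∈ Basin {a} ↔ N ∈ Basin {a} := by
      intro N
      apply basin_inv
      intro s hs
      rw [Set.mem_singleton_iff] at hs
      subst hs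
      exact ⟨p - 1, by rw [show p - 1 + 1 = p by omega, hper]; rfl⟩
    have hd := dichotomy (c := fun N : ℤ => N ∈ Basin {a})
      (fun N _ _ => propext (hinv N)) hM
    have haB : a ∈ Basin {a} := ⟨0, rfl⟩
    have h1 : (-1 : ℤ) ∈ Basin {a} := by
      have := hd a ha hao
      rwa [this] at haB
    have h5 : (-5 : ℤ) ∈ Basin {a} := by
      have := hd (-5) (by norm_num) (by decide)
      rwa [← this] at h1
    obtain ⟨i, hi⟩ := h1
    obtain ⟨j, hj⟩ := h5
    rw [Set.mem_singleton_iff] at hi hj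
    rw [iter1] at hi
    rcases iter5 j with h | h
    · rw [h] at hj; omega
    · rw [h] at hj; omega
  · intro h
    apply morphic_of_const
    intro N h1 h2
    exact propext ⟨fun _ => h (-1) (by norm_num) (by decide), fun _ => h N h1 h2⟩
  · intro hM N h1 h2
    have hd := dichotomy (c := fun N : ℤ => N ∈ Basin {-1, -5, -17})
      (fun N _ _ => propext (hB N)) hM N h1 h2
    rw [hd]
    exact ⟨0, Or.inl rfl⟩

end Pool.Agent.Results.MP_005f52_nt.MorphicBasins
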