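import Mathlib
import Pool.Agent.Run7.h145.QL.L4
import Pool.Agent.Run7.h145.QL.Y3
import Pool.Agent.W26.HN.D

set_option autoImplicit false

/-!
Basins and entrance times of the cycles of the Syracuse map on the negative odd integers, along the odd
negative values of quadratic polynomials in several variables.

The values (for example the numbers `-(x ^ 2 + y ^ 2)`) have density zero or large multiplicities; all
statements count the points of a box at which the value has the property.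
-/

namespace Pool.Agent.Results.MP_005f52_nt.QuadraticValues

open Filter Topology Finset

/-- The Syracuse map. -/
def Syr (N : ℤ) : ℤ := (3 * N + 1) / 2 ^ padicValInt 2 (3 * N + 1)

/-- `Z` is the set of the terms of a periodic orbit of negative odd integers. -/
def IsCycle (Z : Finset ℤ) : Prop :=
  ∃ (a : ℤ) (p : ℕ), a < 0 ∧ Odd a ∧ 1 ≤ p ∧ Syr^[p] a = a ∧
    Z = (Finset.range p).image fun i => Syr^[i] a

/-- The orbit of `N` enters `Z` after exactly `k` steps. -/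
def Enters (Z : Finset ℤ) (k : ℕ) (N : ℤ) : Prop := Syr^[k] N ∈ Z ∧ ∀ i < k, Syr^[i] N ∉ Z

/-- Among the negative odd integers, those with the property `P` have natural density `δ`:
`2 / X` times the number of negative odd `N ≥ -X` with `P N` tends to `δ`. -/
def HasDensity (P : ℤ → Prop) (δ : ℝ) : Prop :=
  Tendsto (fun X : ℕ => 2 / (X : ℝ) * ({N : ℤ | -(X : ℤ) ≤ N ∧ N < 0 ∧ Odd N ∧ P N}.ncard : ℝ))
    atTop (𝓝 δ)

/-- `log |N| / log (4/3) + x * log 2 * √(2 log |N| / (log (4/3))^3)` -/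
noncomputable def bound (x : ℝ) (N : ℤ) : ℝ :=
  1 / Real.log (4 / 3) * Real.log |(N : ℝ)|
    + x * (Real.log 2 * Real.sqrt (2 * Real.log |(N : ℝ)| / Real.log (4 / 3) ^ 3))

/-- The distribution function of the standard normal law. -/
noncomputable def Phi (x : ℝ) : ℝ :=
  ProbabilityTheory.cdf (ProbabilityTheory.gaussianReal 0 1) x

/-- the three known cycles -/
def C₁ : Finset ℤ := {-1}

/-- the three known cycles -/
def C₂ : Finset ℤ := {-5, -7}

/-- the three known cycles -/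
def C₃ : Finset ℤ := {-17, -25, -37, -55, -41, -61, -91}

/-- The value at `x` of the quadratic polynomial with quadratic part `∑ A i j x i x j`, linear part
`∑ l i x i` and constant term `c`. -/
def Val {k : ℕ} (A : Fin k → Fin k → ℤ) (l : Fin k → ℤ) (c : ℤ) (x : Fin k → ℤ) : ℤ :=
  ∑ i, ∑ j, A i j * x i * x j + ∑ i, l i * x i + c

/-- The quadratic form `∑ A i j x i x j` has rank at least two: the symmetric matrix
`A i j + A j i` has a minor of order two that is not zero. -/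
def RankTwo {k : ℕ} (A : Fin k → Fin k → ℤ) : Prop :=
  ∃ p q r s : Fin k, (A p r + A r p) * (A q s + A s q) ≠ (A p s + A s p) * (A q r + A r q)

/-- The integral points `x` of the box `a i < x i ≤ b i` with `x ∈ D` at which the polynomial has an odd
negative value with `u < value ≤ v`. -/
def Points {k : ℕ} (A : Fin k → Fin k → ℤ) (l : Fin k → ℤ) (c : ℤ) (a b : Fin k → ℤ) (u v : ℤ)
    (D : Set (Fin k → ℤ)) : Set (Fin k → ℤ) :=
  {x | (∀ i, a i < x i ∧ x i ≤ b i) ∧ (u < Val A l c x ∧ Val A l c x ≤ v) ∧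
    (Val A l c x < 0 ∧ Odd (Val A l c x)) ∧ x ∈ D}

/-- THE FREQUENCY of the property `P` among the odd negative values of quadratic polynomials is `f`: for
every integral quadratic form `A` of rank at least two in `k` variables, all `B, ε > 0` and `q ≥ 1` there is
`R₀` such that for all `R ≥ R₀`, for all polynomials with quadratic part `A`, linear coefficients at most
`B R` and constant term at most `B R ^ 2`, all boxes in `[-R, R] ^ k`, all `u`, `v` and all sets `D` of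
integral points periodic modulo `q`, the number of the points `x ∈ D` of the box with an odd negative
value between `u` and `v` that has the property `P` is `f` times the number of all points `x ∈ D` of the
box with an odd negative value between `u` and `v`, up to `ε R ^ k`. -/
def Frequency (P : ℤ → Prop) (f : ℝ) : Prop := ∀ (k : ℕ) (A : Fin k → Fin k → ℤ), RankTwo A →
  ∀ (B ε : ℝ) (q : ℕ), 0 < B → 0 < ε → 1 ≤ q → ∃ R₀ : ℕ, ∀ R : ℕ, R₀ ≤ R →
  ∀ (l : Fin k → ℤ) (c : ℤ) (a b : Fin k → ℤ), (∀ i, |(l i : ℝ)| ≤ B * R) → |(c : ℝ)| ≤ B * R ^ 2 →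
  (∀ i, |a i| ≤ R ∧ |b i| ≤ R) → ∀ (u v : ℤ) (D : Set (Fin k → ℤ)),
  (∀ x y : Fin k → ℤ, (∀ i, x i ≡ y i [ZMOD q]) → (x ∈ D ↔ y ∈ D)) →
  |({x ∈ Points A l c a b u v D | P (Val A l c x)}.ncard : ℝ) - f * (Points A l c a b u v D).ncard| ≤ ε * R ^ k

theorem freq_of {Q : ℕ → Prop} {P : ℤ → Prop} {f : ℝ} (h : Pool.Agent.Run7.h145.QL.QV.Fr Q f) (n0 : ℕ)
    (hPQ : ∀ n, n0 ≤ n → Odd n → (Q n ↔ P (-(n : ℤ)))) : Frequency P f :=
  Pool.Agent.Run7.h145.QL.X.neg_of h n0 hPQ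

open Pool.Agent.W26.HN Pool.Agent.H499R2.ND in
theorem density_of {P : ℤ → Prop} {δ : ℝ} (h : Dn (fun n : ℕ => n % 2 = 1 ∧ P (-(n : ℤ))) (δ / 2)) :
    HasDensity P δ := by
  unfold HasDensity
  have h1 := h.const_mul 2
  rw [mul_div_cancel₀ δ (by norm_num : (2 : ℝ) ≠ 0)] at h1
  refine h1.congr fun X => ?_
  have e : {N : ℤ | -(X : ℤ) ≤ N ∧ N < 0 ∧ Odd N ∧ P N}
      = (fun n : ℕ => -(n : ℤ)) '' {n : ℕ | 1 ≤ n ∧ n ≤ X ∧ n % 2 = 1 ∧ P (-(n : ℤ))} := by
    ext N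
    constructor
    · rintro ⟨g1, g2, g3, g4⟩
      have g3' := Int.odd_iff.1 g3
      refine ⟨N.natAbs, ⟨by omega, by omega, by omega, ?_⟩, ?_⟩
      · have : -((N.natAbs : ℕ) : ℤ) = N := by omega
        rw [this]; exact g4
      · show -((N.natAbs : ℕ) : ℤ) = N
        omega
    · rintro ⟨n, ⟨g1, g2, g3, g4⟩, rfl⟩
      refine ⟨?_, ?_, ?_, g4⟩
      · show -(X : ℤ) ≤ -(n : ℤ)
        omega
      · show -(n : ℤ) < 0
        omega
      · rw [Int.odd_iff]
        show -(n : ℤ) % 2 = 1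
        omega
  rw [e, Set.ncard_image_of_injective _ (fun a b hab => by
    have : -(a : ℤ) = -(b : ℤ) := hab
    omega)]
  unfold cnt
  ring

theorem log_abs (n : ℕ) : Real.log |((-(n : ℤ) : ℤ) : ℝ)| = Real.log n := by
  have : |((-(n : ℤ) : ℤ) : ℝ)| = n := by
    push_cast
    rw [abs_neg, abs_of_nonneg (Nat.cast_nonneg n)]
  rw [this]

theorem bound_eq (x : ℝ) (n : ℕ) : bound x (-(n : ℤ)) = Pool.Agent.H499R2.HL.bo x (Real.log n) := by
  unfold bound Pool.Agent.H499R2.HL.bo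
  rw [log_abs]

theorem syr_eq {N M : ℤ} (v : ℕ) (h : 3 * N + 1 = 2 ^ v * M) (hM : M % 2 = 1) : Syr N = M :=
  Pool.Agent.W26.HN.Sy_eq h hM

theorem s1 : Syr (-1) = -1 := syr_eq 1 (by norm_num) (by norm_num)
theorem s5 : Syr (-5) = -7 := syr_eq 1 (by norm_num) (by norm_num)
theorem s7 : Syr (-7) = -5 := syr_eq 2 (by norm_num) (by norm_num)
theorem s17 : Syr (-17) = -25 := syr_eq 1 (by norm_num) (by norm_num)
theorem s25 : Syr (-25) = -37 := syr_eq 1 (by norm_num) (by norm_num)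
theorem s37 : Syr (-37) = -55 := syr_eq 1 (by norm_num) (by norm_num)
theorem s55 : Syr (-55) = -41 := syr_eq 2 (by norm_num) (by norm_num)
theorem s41 : Syr (-41) = -61 := syr_eq 1 (by norm_num) (by norm_num)
theorem s61 : Syr (-61) = -91 := syr_eq 1 (by norm_num) (by norm_num)
theorem s91 : Syr (-91) = -17 := syr_eq 4 (by norm_num) (by norm_num)

theorem cycle₁ : IsCycle C₁ := by
  refine ⟨-1, 1, by norm_num, by decide, le_rfl, by rw [Function.iterate_one, s1], ?_⟩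
  rw [show Finset.range 1 = {0} from rfl, Finset.image_singleton]
  rfl

theorem cycle₂ : IsCycle C₂ := by
  have h1 : Syr^[1] (-5) = -7 := by rw [Function.iterate_one, s5]
  have h2 : Syr^[2] (-5) = -5 := by rw [Function.iterate_succ_apply', h1, s7]
  refine ⟨-5, 2, by norm_num, by decide, by norm_num, h2, ?_⟩
  rw [show Finset.range 2 = {0, 1} from rfl, Finset.image_insert, Finset.image_singleton, h1]
  rfl

theorem cycle₃ : IsCycle C₃ := by
  have h1 : Syr^[1] (-17) = -25 := by rw [Function.iterate_one, s17]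
  have h2 : Syr^[2] (-17) = -37 := by rw [Function.iterate_succ_apply', h1, s25]
  have h3 : Syr^[3] (-17) = -55 := by rw [Function.iterate_succ_apply', h2, s37]
  have h4 : Syr^[4] (-17) = -41 := by rw [Function.iterate_succ_apply', h3, s55]
  have h5 : Syr^[5] (-17) = -61 := by rw [Function.iterate_succ_apply', h4, s41]
  have h6 : Syr^[6] (-17) = -91 := by rw [Function.iterate_succ_apply', h5, s61]
  have h7 : Syr^[7] (-17) = -17 := by rw [Function.iterate_succ_apply', h6, s91]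
  refine ⟨-17, 7, by norm_num, by decide, by norm_num, h7, ?_⟩
  rw [show Finset.range 7 = {0, 1, 2, 3, 4, 5, 6} from rfl]
  simp only [Finset.image_insert, Finset.image_singleton, h1, h2, h3, h4, h5, h6]
  rfl

/-- the trajectories of the elements of a cycle are bounded -/
theorem cyc_bd {Z : Finset ℤ} (hZ : Pool.Agent.W26.HN.IsCyc Z) : ∃ B : ℕ, Pool.Agent.Run7.h145.QL.Bd Z B := by
  have h1 : ∀ y : ℤ, ∃ B : ℕ, y ∈ Z → ∀ i : ℕ, |(Pool.Agent.H499R2.ND.Td 1)^[i] y| ≤ B := by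
    intro y
    by_cases hy : y ∈ Z
    · obtain ⟨j0, hj0⟩ := (Pool.Agent.W26.HN.cyc_mem hZ hy y).1 hy
      obtain ⟨hy0, hyo⟩ := Pool.Agent.W26.HN.cyc_odd hZ hy
      obtain ⟨a, p, ha, hao, hp, hpa, hZe⟩ := hZ
      obtain ⟨i0, _, hi0⟩ := Finset.mem_image.1 (hZe ▸ hy)
      have hpy : Pool.Agent.W26.HN.Sy^[p] y = y := by
        rw [← hi0, ← Function.iterate_add_apply, Nat.add_comm, Function.iterate_add_apply, hpa]
      obtain ⟨k, hk, hky⟩ := Pool.Agent.W26.HN.Sy_iter hyo p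
      rw [hpy] at hky
      have hper : Function.IsPeriodicPt (Pool.Agent.H499R2.ND.Td 1) k y := hky
      refine ⟨∑ i ∈ range k, ((Pool.Agent.H499R2.ND.Td 1)^[i] y).natAbs, fun _ i => ?_⟩
      rw [← hper.iterate_mod_apply i]
      have h2 : ((Pool.Agent.H499R2.ND.Td 1)^[i % k] y).natAbs ≤
          ∑ i ∈ range k, ((Pool.Agent.H499R2.ND.Td 1)^[i] y).natAbs :=
        Finset.single_le_sum (f := fun i => ((Pool.Agent.H499R2.ND.Td 1)^[i] y).natAbs)
          (fun _ _ => Nat.zero_le _) (Finset.mem_range.2 (Nat.mod_lt _ (by omega)))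
      rw [Int.abs_eq_natAbs]
      exact_mod_cast h2
    · exact ⟨0, fun h => absurd h hy⟩
  choose B hB using h1
  refine ⟨∑ y ∈ Z, B y, fun y hy i => (hB y hy i).trans ?_⟩
  exact_mod_cast Finset.single_le_sum (f := B) (fun _ _ => Nat.zero_le _) hy

open Pool.Agent.W26.HN in
/-- the relative frequency of an invariant set -/
theorem inv_rel {S : Set ℤ} (hS : ∀ N : ℤ, N < 0 → N % 2 = 1 → (N ∈ S ↔ Sy N ∈ S)) {d : ℝ}
    (hd : Pool.Agent.H499R2.ND.HD (-1) (Lift S) d) :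
    Frequency (fun N => N ∈ S) d ∧ Frequency (fun N => N ∉ S) (1 - d) := by
  have h1 := Pool.Agent.Run7.h145.QL.RL_inv' Pool.Agent.Run7.h145.QL.QV (s := -1) (Or.inr rfl) (lift_inv hS)
    (Pool.Agent.H499R2.ND.HD_ncard (Or.inr rfl) hd)
  have h2 : ∀ n : ℕ, 1 ≤ n → Odd n → ((-1 : ℤ) * (n : ℤ) ∈ Lift S ↔ -(n : ℤ) ∈ S) := by
    intro n hn ho
    have ho' := Nat.odd_iff.1 ho
    rw [neg_cast]
    exact lift_odd (by omega) (by omega)
  refine ⟨freq_of h1 1 (fun n hn ho => h2 n hn ho), ?_⟩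
  exact freq_of (Pool.Agent.Run7.h145.QL.QV.not h1 (fun _ => Iff.rfl)) 1
    (fun n hn ho => not_congr (h2 n hn ho))

open Pool.Agent.W26.HN Pool.Agent.H499R2.ND in
/-- the laws for one cycle -/
theorem one_cyc {Z : Finset ℤ} (hZ : IsCyc Z) : ∃ d : ℝ, 0 < d ∧
    Dn (fun n : ℕ => n % 2 = 1 ∧ -(n : ℤ) ∈ Ba Z) (d / 2) ∧
    Frequency (fun N => ∃ k : ℕ, Syr^[k] N ∈ Z) d ∧
    (∀ (q : ℕ) (b : ℤ), 1 ≤ q →
      Frequency (fun N => ∃ k : ℕ, Enters Z k N ∧ (k : ℤ) ≡ b [ZMOD q]) (d / q) ∧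
      ∀ x : ℝ, Frequency (fun N => ∃ k : ℕ, Enters Z k N ∧ (k : ℝ) ≤ bound x N ∧
            (k : ℤ) ≡ b [ZMOD q]) (d * QuadraticValues.Phi x / q)) ∧
    (∀ η : ℝ, 0 < η → Frequency (fun N => ∃ k : ℕ, Enters Z k N ∧
        |(k : ℝ) - 1 / Real.log (4 / 3) * Real.log (|(N : ℝ)|)| ≤ η * Real.log |(N : ℝ)|) d) := by
  have hodd : ∀ y ∈ Z, y % 2 = 1 := fun y hy => (cyc_odd hZ hy).2
  obtain ⟨B, hB⟩ := cyc_bd hZ
  obtain ⟨d, h0, h1, hpos, hE, hRL, hlaw⟩ := Pool.Agent.Run7.h145.QL.rel_entr Pool.Agent.Run7.h145.QL.QV (s := -1) (Or.inr rfl) hodd hB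
  obtain ⟨y, hy, hy0, _, hy3⟩ := cyc_nonempty hZ
  have key : ∀ (R : ℕ → Prop) (R' : ℤ → Prop), (∀ j : ℕ, R j ↔ R' (j : ℤ)) → ∀ n : ℕ, 1 ≤ n → Odd n →
      ((∃ k, E Z k (-1 * (n : ℤ)) ∧ R' (Pool.Agent.H499R2.LT.od 1 k (-1 * (n : ℤ)))) ↔
        ∃ k : ℕ, Enters Z k (-(n : ℤ)) ∧ R k) := by
    intro R R' hR n hn ho
    have ho' := Nat.odd_iff.1 ho
    rw [neg_cast]
    have hx : (-(n : ℤ)) % 2 = 1 := by omega
    constructor
    · rintro ⟨k, hk, hk2⟩
      obtain ⟨j, hj, hj'⟩ := En_of_E hodd k _ hx hk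
      exact ⟨j, hj', (hR j).2 (by rw [hj]; exact hk2)⟩
    · rintro ⟨j, hj, hj2⟩
      obtain ⟨k, hk, hk'⟩ := E_of_En hodd j _ hx hj
      exact ⟨k, hk', by rw [← hk]; exact (hR j).1 hj2⟩
  have kbas : ∀ n : ℕ, 1 ≤ n → Odd n → ((∃ k, E Z k (-1 * (n : ℤ))) ↔ ∃ k : ℕ, Syr^[k] (-(n : ℤ)) ∈ Z) := by
    intro n hn ho
    have h5 := key (fun _ => True) (fun _ => True) (fun _ => Iff.rfl) n hn ho
    simp only [and_true] at h5
    rw [h5]
    constructor
    · rintro ⟨k, hk⟩; exact ⟨k, hk.1⟩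
    · intro hk
      classical
      exact ⟨Nat.find hk, Nat.find_spec hk, fun i hi => Nat.find_min hk hi⟩
  refine ⟨d, hpos ⟨y, hy, by omega, hy3⟩, ?_, ?_, fun q b hq => ⟨?_, fun x => ?_⟩, fun η hη => ?_⟩
  · have h5 := Pool.Agent.H499R2.HL.dn_odd hE (Pool.Agent.H499R2.LT.Dn_iff (fun n _ => by
      rw [side_two]
      exact ⟨fun ⟨k, hk⟩ => ⟨k + 1, E_two hodd hk⟩, fun ⟨k, hk⟩ => by
        obtain ⟨k', _, h'⟩ := E_of_two hodd hk
        exact ⟨k', h'⟩⟩) hE)
    refine Pool.Agent.H499R2.LT.Dn_iff (fun n hn => and_congr_right fun hn2 => ?_) h5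
    exact kbas n hn (Nat.odd_iff.2 hn2)
  · exact freq_of hRL 1 (fun n hn ho => kbas n hn ho)
  · exact freq_of (hlaw q b hq).1 1 (fun n hn ho =>
      key (fun j => (j : ℤ) ≡ b [ZMOD q]) (fun o => o ≡ b [ZMOD q]) (fun _ => Iff.rfl) n hn ho)
  · have h5 := (hlaw q b hq).2 x
    have e : d / (q : ℝ) * Pool.Agent.H499R2.ND.Phi x = d * QuadraticValues.Phi x / q := by
      unfold QuadraticValues.Phi
      rw [← Pool.Agent.H499R2.ND.phi_cdf]
      ring
    rw [e] at h5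
    refine freq_of h5 1 (fun n hn ho => ?_)
    rw [bound_eq]
    refine key (fun j => (j : ℝ) ≤ Pool.Agent.H499R2.HL.bo x (Real.log n) ∧ (j : ℤ) ≡ b [ZMOD q])
      (fun o => (o : ℝ) ≤ Pool.Agent.H499R2.HL.bo x (Real.log n) ∧ o ≡ b [ZMOD q]) (fun j => ?_) n hn ho
    push_cast
    rfl
  · have hrr := Pool.Agent.H499R2.HL.rr_pos
    have hl2 : 0 < Real.log 2 := Real.log_pos (by norm_num)
    have h6 := Pool.Agent.Run7.h145.QL.lln2 Pool.Agent.Run7.h145.QL.QV (P := fun n : ℕ => ∃ k, E Z k (-1 * (n : ℤ)))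
      (f := fun k n => E Z k (-1 * (n : ℤ)))
      (g := fun k n => (Pool.Agent.H499R2.LT.od 1 k (-1 * (n : ℤ)) : ℝ))
      (α := 1 / Real.log (4 / 3))
      (σ := Real.log 2 * Pool.Agent.H499R2.HL.rr) (δ := d) (η := η) (by positivity) h0 h1 hη (fun x => by
        have h7 := (hlaw 1 0 le_rfl).2 x
        have e1 : d / ((1 : ℕ) : ℝ) * Pool.Agent.H499R2.ND.Phi x = d * Pool.Agent.H499R2.ND.Phi x := by simp
        rw [e1] at h7
        refine Pool.Agent.Run7.h145.QL.QV.congr 0 (fun n _ => exists_congr fun k => and_congr_right fun _ => ?_) h7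
        rw [← Pool.Agent.Run7.h145.QL.bo_thr]
        simp [Int.modEq_one]) hRL (fun n h => h)
    refine freq_of h6 1 (fun n hn ho => ?_)
    rw [log_abs]
    refine key (fun j => |(j : ℝ) - 1 / Real.log (4 / 3) * Real.log n| ≤ η * Real.log n)
      (fun o => |(o : ℝ) - 1 / Real.log (4 / 3) * Real.log n| ≤ η * Real.log n) (fun j => ?_) n hn ho
    push_cast
    rfl

/-- BASINS AND ENTRANCE TIMES ALONG THE ODD NEGATIVE VALUES OF QUADRATIC POLYNOMIALS.
Every cycle `Z` of negative odd integers (known or not) has a basin of positive natural density `δ Z`.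
In the sense of `Frequency` (odd negative values of quadratic
polynomials with quadratic part of rank at least two, at the points of boxes and of sets periodic modulo
`q`, uniformly in the lower coefficients, the box, the range of values and the periodic set):
(1) the basin of `Z` has frequency `δ Z`; the `N` whose orbits enter `Z` after `k ≡ b` modulo `q` steps
have frequency `δ Z / q`, and those which enter it, moreover, after at most
`log |N| / log (4/3) + x log 2 √(2 log |N| / (log (4/3))^3)` steps have frequency `δ Z Φ(x) / q`, `Φ` the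
standard normal distribution function; for every `η > 0` those which enter `Z` after
`(1 / log (4/3) ± η) log |N|` steps have frequency `δ Z`;
(2) the `N` for which the assertion of Q1 holds have frequency `δ C₁ + δ C₂ + δ C₃`, and this sum is `1`
if and only if Q1 is true;
(3) the unbounded orbits have frequency `1 - ∑ δ Z`, the sum over all cycles, and this is `0` if and only if
there is no unbounded orbit;
(4) every set `S` of negative odd integers which contains `N` iff it contains `Syr N` has a natural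
density, and this is its frequency.
(5) Let the property `P` have the frequency `f`. Then
 (a) for every quadratic polynomial in `k` variables with quadratic part of rank at least two that takes
     a negative value, and which has an odd value, `P` holds at the proportion `f` of the points of the cubes
     `[-N, N] ^ k` at which the value is negative and odd;
 (b) `P (-(x ^ 2 + y ^ 2))` holds for the proportion `f` of the integral points with `x ^ 2 + y ^ 2 ≤ N` odd;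
 (c) `P (- x y)` holds for the proportion `f` of the pairs of odd `x, y ≤ N`;
 (d) if `f > 0` and `β ^ 2 ≠ 4 α γ`, every large `n` for which `n - (α x ^ 2 + β x y + γ y ^ 2)` is odd for
     some integers `x`, `y` has at least `κ n` representations `n = α x ^ 2 + β x y + γ y ^ 2 - t` with
     positive `x`, `y` at most `√n` and negative odd `t` with the property `P`. -/
theorem result :
    (∃ δ : Finset ℤ → ℝ,
      (∀ Z : Finset ℤ, IsCycle Z →
        0 < δ Z ∧ HasDensity (fun N => ∃ k : ℕ, Syr^[k] N ∈ Z) (δ Z) ∧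
        Frequency (fun N => ∃ k : ℕ, Syr^[k] N ∈ Z) (δ Z) ∧
        (∀ (q : ℕ) (b : ℤ), 1 ≤ q →
          Frequency (fun N => ∃ k : ℕ, Enters Z k N ∧ (k : ℤ) ≡ b [ZMOD q]) (δ Z / q) ∧
          ∀ x : ℝ, Frequency (fun N => ∃ k : ℕ, Enters Z k N ∧ (k : ℝ) ≤ bound x N ∧
            (k : ℤ) ≡ b [ZMOD q]) (δ Z * Phi x / q)) ∧
        ∀ η : ℝ, 0 < η → Frequency (fun N => ∃ k : ℕ, Enters Z k N ∧
          |(k : ℝ) - 1 / Real.log (4 / 3) * Real.log (|(N : ℝ)|)| ≤ η * Real.log |(N : ℝ)|) (δ Z)) ∧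
      (IsCycle C₁ ∧ IsCycle C₂ ∧ IsCycle C₃ ∧
        Frequency (fun N => ∃ k : ℕ, Syr^[k] N ∈ C₁ ∪ C₂ ∪ C₃) (δ C₁ + δ C₂ + δ C₃) ∧
        (δ C₁ + δ C₂ + δ C₃ = 1 ↔ ∀ N, N < 0 → Odd N → ∃ k : ℕ, Syr^[k] N ∈ C₁ ∪ C₂ ∪ C₃)) ∧
      ∃ D : ℝ, HasSum (fun Z : {Z : Finset ℤ // IsCycle Z} => δ Z) D ∧
        Frequency (fun N => ∀ M : ℤ, ∃ k : ℕ, M < |Syr^[k] N|) (1 - D) ∧
        (D = 1 ↔ ∀ N, N < 0 → Odd N → ∃ M : ℤ, ∀ k : ℕ, |Syr^[k] N| ≤ M)) ∧
    (∀ S : Set ℤ, (∀ N, N < 0 → Odd N → (N ∈ S ↔ Syr N ∈ S)) →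
      ∃ d : ℝ, HasDensity (fun N => N ∈ S) d ∧ Frequency (fun N => N ∈ S) d) ∧
    (∀ (P : ℤ → Prop) (f : ℝ), Frequency P f →
      (∀ (k : ℕ) (A : Fin k → Fin k → ℤ), RankTwo A → ∀ (l : Fin k → ℤ) (c : ℤ) (x₀ z : Fin k → ℤ),
        ∑ i, ∑ j, A i j * x₀ i * x₀ j < 0 → Odd (Val A l c z) →
        Tendsto (fun N : ℕ => ({x : Fin k → ℤ | (∀ i, |x i| ≤ N) ∧ (Val A l c x < 0 ∧ Odd (Val A l c x)) ∧
          P (Val A l c x)}.ncard : ℝ) /
          {x : Fin k → ℤ | (∀ i, |x i| ≤ N) ∧ (Val A l c x < 0 ∧ Odd (Val A l c x))}.ncard) atTop (𝓝 f)) ∧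
      Tendsto (fun N : ℕ => ({p : ℤ × ℤ | Odd (p.1 ^ 2 + p.2 ^ 2) ∧ p.1 ^ 2 + p.2 ^ 2 ≤ N ∧
        P (-(p.1 ^ 2 + p.2 ^ 2))}.ncard : ℝ) /
        {p : ℤ × ℤ | Odd (p.1 ^ 2 + p.2 ^ 2) ∧ p.1 ^ 2 + p.2 ^ 2 ≤ N}.ncard) atTop (𝓝 f) ∧
      Tendsto (fun N : ℕ => ({p : ℕ × ℕ | Odd p.1 ∧ Odd p.2 ∧ p.1 ≤ N ∧ p.2 ≤ N ∧
        P (-((p.1 : ℤ) * (p.2 : ℤ)))}.ncard : ℝ) /
        {p : ℕ × ℕ | Odd p.1 ∧ Odd p.2 ∧ p.1 ≤ N ∧ p.2 ≤ N}.ncard) atTop (𝓝 f) ∧
      (0 < f → ∀ α β γ : ℤ, β ^ 2 ≠ 4 * α * γ → ∃ κ : ℝ, 0 < κ ∧ ∃ n₀ : ℕ, ∀ n : ℕ, n₀ ≤ n →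
        (∃ x y : ℤ, Odd (n - (α * x ^ 2 + β * x * y + γ * y ^ 2))) →
        κ * n ≤ {p : ℤ × ℤ | (0 < p.1 ∧ p.1 ^ 2 ≤ n) ∧ (0 < p.2 ∧ p.2 ^ 2 ≤ n) ∧
          ∃ t : ℤ, t < 0 ∧ Odd t ∧ P t ∧
            (n : ℤ) = (α * p.1 ^ 2 + β * p.1 * p.2 + γ * p.2 ^ 2) - t}.ncard)) := by
  have hconv : ∀ S : Set ℤ, (∀ N, N < 0 → Odd N → (N ∈ S ↔ Syr N ∈ S)) →
      ∀ N : ℤ, N < 0 → N % 2 = 1 → (N ∈ S ↔ Pool.Agent.W26.HN.Sy N ∈ S) :=
    fun S hS N hN hodd => hS N hN (Int.odd_iff.2 hodd)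
  refine ⟨?_, fun S hS => ?_, fun P f hP => ⟨?_, ?_, ?_, ?_⟩⟩
  · classical
    have hex : ∀ Z : Finset ℤ, ∃ d : ℝ, Pool.Agent.W26.HN.IsCyc Z → 0 < d ∧
        Pool.Agent.H499R2.ND.Dn (fun n : ℕ => n % 2 = 1 ∧ -(n : ℤ) ∈ Pool.Agent.W26.HN.Ba Z) (d / 2) ∧
        Frequency (fun N => ∃ k : ℕ, Syr^[k] N ∈ Z) d ∧
        (∀ (q : ℕ) (b : ℤ), 1 ≤ q →
          Frequency (fun N => ∃ k : ℕ, Enters Z k N ∧ (k : ℤ) ≡ b [ZMOD q]) (d / q) ∧
          ∀ x : ℝ, Frequency (fun N => ∃ k : ℕ, Enters Z k N ∧ (k : ℝ) ≤ bound x N ∧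
                (k : ℤ) ≡ b [ZMOD q]) (d * Phi x / q)) ∧
        (∀ η : ℝ, 0 < η → Frequency (fun N => ∃ k : ℕ, Enters Z k N ∧
            |(k : ℝ) - 1 / Real.log (4 / 3) * Real.log (|(N : ℝ)|)| ≤ η * Real.log |(N : ℝ)|) d) := by
      intro Z
      by_cases hZ : Pool.Agent.W26.HN.IsCyc Z
      · obtain ⟨d, hd⟩ := one_cyc hZ
        exact ⟨d, fun _ => hd⟩
      · exact ⟨0, fun h => absurd h hZ⟩
    choose δ hδ using hex
    refine ⟨δ, fun Z hZ => ?_, ?_, ?_⟩
    · obtain ⟨h0, h1, h2, h3, h4⟩ := hδ Z hZ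
      exact ⟨h0, density_of h1, h2, h3, h4⟩
    · have hC : ∀ y ∈ C₁ ∪ C₂ ∪ C₃, Syr y ∈ C₁ ∪ C₂ ∪ C₃ := by
        intro y hy
        have h1 : ∀ {Z : Finset ℤ}, IsCycle Z → y ∈ Z → Syr y ∈ Z :=
          fun hZ hyZ => Pool.Agent.W26.HN.cyc_step hZ y hyZ
        rw [Finset.mem_union, Finset.mem_union] at hy ⊢
        rcases hy with (hy | hy) | hy
        · exact Or.inl (Or.inl (h1 cycle₁ hy))
        · exact Or.inl (Or.inr (h1 cycle₂ hy))
        · exact Or.inr (h1 cycle₃ hy)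
      have hinv : ∀ N : ℤ, N < 0 → N % 2 = 1 → (N ∈ Pool.Agent.W26.HN.Ba (C₁ ∪ C₂ ∪ C₃) ↔
          Pool.Agent.W26.HN.Sy N ∈ Pool.Agent.W26.HN.Ba (C₁ ∪ C₂ ∪ C₃)) :=
        fun N _ _ => Pool.Agent.W26.HN.Ba_inv hC N
      obtain ⟨d, _, _, hHD, hd, _, h1⟩ := Pool.Agent.W26.HN.inv_density hinv
      have h12 : C₁ ≠ C₂ := by decide
      have h13 : C₁ ≠ C₃ := by decide
      have h23 : C₂ ≠ C₃ := by decide
      have hcy : ∀ Z ∈ ({C₁, C₂, C₃} : Finset (Finset ℤ)), IsCycle Z := by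
        intro Z hZ
        rw [Finset.mem_insert, Finset.mem_insert, Finset.mem_singleton] at hZ
        rcases hZ with rfl | rfl | rfl
        · exact cycle₁
        · exact cycle₂
        · exact cycle₃
      have h2 := Pool.Agent.H499R2.LT.Dn_sum ({C₁, C₂, C₃} : Finset (Finset ℤ))
        (fun Z n => n % 2 = 1 ∧ -(n : ℤ) ∈ Pool.Agent.W26.HN.Ba Z) (fun Z => δ Z / 2)
        (fun Z hZ => (hδ Z (hcy Z hZ)).2.1) (by
          rintro n Z hZ Z' hZ' ⟨_, k, hk⟩ ⟨_, k', hk'⟩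
          exact Pool.Agent.W26.HN.cyc_eq (hcy Z hZ) (hcy Z' hZ') hk hk')
      have h3 : Pool.Agent.H499R2.ND.Dn (fun n : ℕ => n % 2 = 1 ∧
          -(n : ℤ) ∈ Pool.Agent.W26.HN.Ba (C₁ ∪ C₂ ∪ C₃)) ((δ C₁ + δ C₂ + δ C₃) / 2) := by
        rw [Finset.sum_insert (by
          rw [Finset.mem_insert, Finset.mem_singleton]
          rintro (h | h)
          · exact h12 h
          · exact h13 h), Finset.sum_insert (by
          rw [Finset.mem_singleton]; exact h23), Finset.sum_singleton] at h2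
        have e : δ C₁ / 2 + (δ C₂ / 2 + δ C₃ / 2) = (δ C₁ + δ C₂ + δ C₃) / 2 := by ring
        rw [e] at h2
        refine Pool.Agent.H499R2.LT.Dn_iff (fun n _ => ?_) h2
        constructor
        · rintro ⟨Z, hZ, h4, k, hk⟩
          refine ⟨h4, k, ?_⟩
          rw [Finset.mem_union, Finset.mem_union]
          rw [Finset.mem_insert, Finset.mem_insert, Finset.mem_singleton] at hZ
          rcases hZ with rfl | rfl | rfl
          · exact Or.inl (Or.inl hk)
          · exact Or.inl (Or.inr hk)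
          · exact Or.inr hk
        · rintro ⟨h4, k, hk⟩
          rw [Finset.mem_union, Finset.mem_union] at hk
          rcases hk with (hk | hk) | hk
          · exact ⟨C₁, by simp, h4, k, hk⟩
          · exact ⟨C₂, by simp, h4, k, hk⟩
          · exact ⟨C₃, by simp, h4, k, hk⟩
      have h4 : d = δ C₁ + δ C₂ + δ C₃ := by
        have := tendsto_nhds_unique hd h3
        linarith
      refine ⟨cycle₁, cycle₂, cycle₃, ?_, ?_⟩
      · rw [← h4]
        exact (inv_rel hinv hHD).1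
      · rw [← h4, h1]
        exact forall_congr' fun N => forall_congr' fun _ => by rw [Int.odd_iff]; exact Iff.rfl
    · obtain ⟨D, hsum, hD, hD1⟩ := Pool.Agent.W26.HN.sum_cyc δ (fun Z hZ => (hδ Z hZ).2.1)
      have hub : ∀ N : ℤ, (∀ M : ℤ, ∃ k : ℕ, M < |Syr^[k] N|) ↔ N ∉ Pool.Agent.W26.HN.EP :=
        fun N => Pool.Agent.H499R2.ND.unbounded_iff Syr N
      have hinv : ∀ N : ℤ, N < 0 → N % 2 = 1 → (N ∈ Pool.Agent.W26.HN.EP ↔
          Pool.Agent.W26.HN.Sy N ∈ Pool.Agent.W26.HN.EP) := fun N _ _ => Pool.Agent.W26.HN.EP_inv N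
      obtain ⟨d, _, _, hHD, hd, _, _⟩ := Pool.Agent.W26.HN.inv_density hinv
      have h4 : d = D := by
        have := tendsto_nhds_unique hd hD
        linarith
      refine ⟨D, hsum, ?_, ?_⟩
      · have h5 := (inv_rel hinv hHD).2
        rw [h4] at h5
        have e : (fun N : ℤ => ∀ M : ℤ, ∃ k : ℕ, M < |Syr^[k] N|) = fun N => N ∉ Pool.Agent.W26.HN.EP :=
          funext fun N => propext (hub N)
        rw [e]
        exact h5
      · rw [hD1]
        refine forall_congr' fun N => forall_congr' fun _ => ?_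
        rw [Int.odd_iff]
        refine forall_congr' fun _ => ?_
        have h1 := hub N
        constructor
        · intro h
          by_contra hcon
          push Not at hcon
          exact (h1.1 hcon) h
        · rintro ⟨M, hM⟩
          by_contra hcon
          obtain ⟨k, hk⟩ := h1.2 hcon M
          exact absurd (hM k) (not_le.2 hk)
  · obtain ⟨d, _, _, hHD, hd, _, _⟩ := Pool.Agent.W26.HN.inv_density (hconv S hS)
    exact ⟨d, density_of hd, (inv_rel (hconv S hS) hHD).1⟩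
  · intro k A hA l c x₀ z hx hz
    exact Pool.Agent.Run7.h145.QL.X.cubes_neg hP hA l c hx hz
  · exact Pool.Agent.Run7.h145.QL.X.two_squares_neg hP
  · exact Pool.Agent.Run7.h145.QL.X.products_neg hP
  · intro hf α β γ hd
    exact Pool.Agent.Run7.h145.QL.X.represent_neg hf hP hd

end Pool.Agent.Results.MP_005f52_nt.QuadraticValues
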